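import Pool.Agent.V7.Top.Ext

/-!
# Ranks of tuples of complex numbers with respect to derivations
-/

namespace Pool.Agent.V7.Top

open Module MvPolynomial

theorem Kd_anti {S S' : Set ℂ} (h : S ⊆ S') : Kd S' ≤ Kd S := fun _ hD x hx => hD x (h hx)

/-- The values of a derivation on a tuple. -/
noncomputable def dv {ι : Type*} (y : ι → ℂ) : Derivation ℚ ℂ ℂ →ₗ[ℂ] (ι → ℂ) where
  toFun D := fun i => D (y i)
  map_add' _ _ := rfl
  map_smul' _ _ := rfl

@[simp] theorem dv_apply {ι : Type*} (y : ι → ℂ) (D : Derivation ℚ ℂ ℂ) (i : ι) :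
    dv y D i = D (y i) := rfl

/-- The values on a tuple of the derivations which vanish on `S`. -/
noncomputable def im {ι : Type*} (S : Set ℂ) (y : ι → ℂ) : Submodule ℂ (ι → ℂ) :=
  (Kd S).map (dv y)

/-- The number of independent values. -/
noncomputable def rk {ι : Type*} (S : Set ℂ) (y : ι → ℂ) : ℕ := finrank ℂ (im S y)

theorem rk_anti {ι : Type*} [Finite ι] {S S' : Set ℂ} (h : S ⊆ S') (y : ι → ℂ) :
    rk S' y ≤ rk S y :=
  Submodule.finrank_mono (Submodule.map_mono (Kd_anti h))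

theorem rk_le_card {ι : Type*} [Fintype ι] (S : Set ℂ) (y : ι → ℂ) :
    rk S y ≤ Fintype.card ι := by
  refine (Submodule.finrank_le _).trans ?_
  simp

theorem Kd_inf_ker {ι : Type*} (S : Set ℂ) (y : ι → ℂ) :
    Kd S ⊓ LinearMap.ker (dv y) = Kd (S ∪ Set.range y) := by
  ext D
  rw [Submodule.mem_inf, LinearMap.mem_ker]
  constructor
  · rintro ⟨h1, h2⟩ x (hx | ⟨i, rfl⟩)
    · exact h1 x hx
    · exact congrFun h2 i
  · intro h
    exact ⟨fun x hx => h x (Or.inl hx), funext fun i => h _ (Or.inr ⟨i, rfl⟩)⟩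

theorem finrank_map_prod {V A B : Type*} [AddCommGroup V] [Module ℂ V] [AddCommGroup A]
    [Module ℂ A] [AddCommGroup B] [Module ℂ B] [FiniteDimensional ℂ A] [FiniteDimensional ℂ B]
    (P : Submodule ℂ V) (f : V →ₗ[ℂ] A) (g : V →ₗ[ℂ] B) :
    finrank ℂ (P.map (f.prod g)) =
      finrank ℂ (P.map f) + finrank ℂ ((P ⊓ LinearMap.ker f).map g) := by
  set Q := P.map (f.prod g) with hQ
  have h1 := LinearMap.finrank_range_add_finrank_ker ((LinearMap.fst ℂ A B).domRestrict Q)
  rw [← h1]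
  congr 1
  · have h3 : LinearMap.range ((LinearMap.fst ℂ A B).domRestrict Q) = P.map f := by
      rw [LinearMap.range_domRestrict, hQ, ← Submodule.map_comp]
      rfl
    rw [h3]
  · have h2 : (LinearMap.ker ((LinearMap.fst ℂ A B).domRestrict Q)).map
        ((LinearMap.snd ℂ A B).domRestrict Q) = (P ⊓ LinearMap.ker f).map g := by
      ext y
      constructor
      · rintro ⟨⟨q, hq⟩, hq1, rfl⟩
        obtain ⟨v, hv, rfl⟩ := hq
        refine ⟨v, ⟨hv, ?_⟩, rfl⟩
        exact hq1
      · rintro ⟨v, ⟨hv, hv2⟩, rfl⟩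
        refine ⟨⟨(f.prod g) v, Submodule.mem_map_of_mem hv⟩, ?_, rfl⟩
        exact hv2
    have h4 : LinearMap.range (((LinearMap.snd ℂ A B).domRestrict Q).domRestrict
        (LinearMap.ker ((LinearMap.fst ℂ A B).domRestrict Q))) = (P ⊓ LinearMap.ker f).map g := by
      rw [LinearMap.range_domRestrict, h2]
    rw [← h4]
    symm
    apply LinearMap.finrank_range_of_inj
    intro x y hxy
    apply Subtype.ext
    apply Subtype.ext
    apply Prod.ext
    · have hx : (x : Q).1.1 = 0 := x.2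
      have hy : (y : Q).1.1 = 0 := y.2
      rw [hx, hy]
    · exact hxy

theorem rk_joint {ι κ : Type*} [Finite ι] [Finite κ] (S : Set ℂ) (y : ι → ℂ) (y' : κ → ℂ) :
    finrank ℂ ((Kd S).map ((dv y).prod (dv y'))) = rk S y + rk (S ∪ Set.range y) y' := by
  rw [finrank_map_prod, Kd_inf_ker]
  rfl

theorem rk_le_add {ι κ : Type*} [Finite ι] [Finite κ] (S : Set ℂ) (y : ι → ℂ) (y' : κ → ℂ) :
    rk S y' ≤ rk S y + rk (S ∪ Set.range y) y' := by
  rw [← rk_joint]
  have h : im S y' = ((Kd S).map ((dv y).prod (dv y'))).map (LinearMap.snd ℂ (ι → ℂ) (κ → ℂ)) := by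
    rw [← Submodule.map_comp]
    rfl
  rw [rk, h]
  exact Submodule.finrank_map_le _ _

/-- A subspace of a space of functions has a basis in echelon form. -/
theorem exists_pivot {ι : Type*} [Finite ι] (W : Submodule ℂ (ι → ℂ)) :
    ∃ (a : Fin (finrank ℂ W) → ι) (b : Fin (finrank ℂ W) → ι → ℂ), Function.Injective a ∧
      (∀ k, b k ∈ W) ∧ (∀ k k', b k (a k') = if k = k' then 1 else 0) ∧
      ∀ w ∈ W, w = ∑ k, w (a k) • b k := by
  classical
  let φ : ι → Dual ℂ W := fun i => (LinearMap.proj i).comp W.subtype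
  have hspan : Submodule.span ℂ (Set.range φ) = ⊤ := by
    by_contra hne
    obtain ⟨x, hx0, hx⟩ : ∃ x : W, x ≠ 0 ∧ ∀ f ∈ Submodule.span ℂ (Set.range φ), f x = 0 := by
      by_contra hcon
      push Not at hcon
      apply hne
      have h1 : (Submodule.span ℂ (Set.range φ)).dualCoannihilator = ⊥ := by
        rw [eq_bot_iff]
        intro x hx
        rw [Submodule.mem_bot]
        by_contra hx0
        obtain ⟨f, hf, hf'⟩ := hcon x hx0
        rw [Submodule.mem_dualCoannihilator] at hx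
        exact hf' (hx f hf)
      have h2 := Subspace.dualCoannihilator_dualAnnihilator_eq
        (W := Submodule.span ℂ (Set.range φ))
      rw [← h2, h1, Submodule.dualAnnihilator_bot]
    apply hx0
    apply Subtype.ext
    funext i
    exact hx (φ i) (Submodule.subset_span ⟨i, rfl⟩)
  obtain ⟨κ, a, ha, hsp, hli⟩ := exists_linearIndependent' ℂ φ
  rw [hspan] at hsp
  have : Finite κ := Finite.of_injective a ha
  have : Fintype κ := Fintype.ofFinite κ
  let B : Basis κ ℂ (Dual ℂ W) := Basis.mk hli hsp.ge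
  have hcard : Fintype.card κ = finrank ℂ W := by
    rw [← finrank_eq_card_basis B, Subspace.dual_finrank_eq]
  let Φ : W →ₗ[ℂ] (κ → ℂ) := LinearMap.pi fun k => φ (a k)
  have hinj : Function.Injective Φ := by
    rw [← LinearMap.ker_eq_bot, eq_bot_iff]
    intro x hx
    rw [Submodule.mem_bot]
    rw [LinearMap.mem_ker] at hx
    have h1 : ∀ f ∈ Submodule.span ℂ (Set.range (φ ∘ a)), f x = 0 := by
      intro f hf
      induction hf using Submodule.span_induction with
      | mem f hf =>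
        obtain ⟨k, rfl⟩ := hf
        exact congrFun hx k
      | zero => rfl
      | add f g _ _ h1 h2 => rw [LinearMap.add_apply, h1, h2, add_zero]
      | smul c f _ h1 => rw [LinearMap.smul_apply, h1, smul_zero]
    apply Subtype.ext
    funext i
    apply h1 (φ i)
    rw [hsp]
    trivial
  have hfr : finrank ℂ W = finrank ℂ (κ → ℂ) := by
    rw [finrank_fintype_fun_eq_card, hcard]
  let e : W ≃ₗ[ℂ] (κ → ℂ) := LinearEquiv.ofInjectiveOfFinrankEq Φ hinj hfr
  let r : Fin (finrank ℂ W) ≃ κ := (Fintype.equivFinOfCardEq hcard).symm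
  have he : ∀ (w : W) (k : κ), e w k = (w : ι → ℂ) (a k) := fun w k => rfl
  have hb : ∀ k k', ((e.symm (Pi.single (r k) 1) : W) : ι → ℂ) (a (r k')) =
      if k = k' then 1 else 0 := by
    intro k k'
    rw [← he, LinearEquiv.apply_symm_apply, Pi.single_apply]
    by_cases h : k = k'
    · simp [h]
    · rw [if_neg h, if_neg]
      intro h'
      exact h (r.injective h').symm
  refine ⟨fun k => a (r k), fun k => ((e.symm (Pi.single (r k) 1) : W) : ι → ℂ), ?_, ?_, hb, ?_⟩
  · exact ha.comp r.injective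
  · intro k
    exact (e.symm _).2
  · intro w hw
    have h1 : (⟨w, hw⟩ : W) = ∑ k, w (a (r k)) • e.symm (Pi.single (r k) 1) := by
      apply e.injective
      rw [map_sum]
      funext k'
      obtain ⟨k'', rfl⟩ := r.surjective k'
      rw [he, Finset.sum_apply]
      simp only [map_smul, LinearEquiv.apply_symm_apply, Pi.smul_apply, Pi.single_apply,
        smul_eq_mul, mul_ite, mul_one, mul_zero, EmbeddingLike.apply_eq_iff_eq]
      simp
    have h2 := congrArg (Subtype.val) h1
    simp only [Submodule.coe_sum, Submodule.coe_smul] at h2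
    exact h2

/-- The echelon basis of a subspace which is stable under derivations consists of constants. -/
theorem pivot_const {ι : Type*} [Finite ι] {S : Set ℂ} {W : Submodule ℂ (ι → ℂ)}
    (hW : ∀ D ∈ Kd S, ∀ w ∈ W, (fun i => D (w i)) ∈ W)
    {a : Fin (finrank ℂ W) → ι} {b : Fin (finrank ℂ W) → ι → ℂ} (hb : ∀ k, b k ∈ W)
    (hab : ∀ k k', b k (a k') = if k = k' then 1 else 0) (hs : ∀ w ∈ W, w = ∑ k, w (a k) • b k)
    (k : Fin (finrank ℂ W)) (i : ι) (D : Derivation ℚ ℂ ℂ) (hD : D ∈ Kd S) : D (b k i) = 0 := by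
  have h1 := hs _ (hW D hD _ (hb k))
  have h2 : ∀ k', D (b k (a k')) = 0 := by
    intro k'
    rw [hab]
    split_ifs
    · exact D.map_one_eq_zero
    · exact map_zero D
  have h3 := congrFun h1 i
  rw [h3, Finset.sum_apply]
  apply Finset.sum_eq_zero
  intro k' _
  rw [Pi.smul_apply, h2, zero_smul]

theorem exists_const {ι : Type*} [Finite ι] {S : Set ℂ} {W : Submodule ℂ (ι → ℂ)}
    (hW : ∀ D ∈ Kd S, ∀ w ∈ W, (fun i => D (w i)) ∈ W) (h0 : W ≠ ⊥) :
    ∃ w ∈ W, w ≠ 0 ∧ ∀ D ∈ Kd S, ∀ i, D (w i) = 0 := by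
  obtain ⟨a, b, ha, hb, hab, hs⟩ := exists_pivot W
  have hpos : 0 < finrank ℂ W := by
    rw [pos_iff_ne_zero]
    intro h
    exact h0 (Submodule.finrank_eq_zero.1 h)
  refine ⟨b ⟨0, hpos⟩, hb _, ?_, fun D hD i => pivot_const hW hb hab hs _ i D hD⟩
  intro h
  have h1 := hab ⟨0, hpos⟩ ⟨0, hpos⟩
  rw [h] at h1
  simp at h1

end Pool.Agent.V7.Top
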