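import Pool.Agent.V7.Top.Lin
import Pool.Agent.V7.Cls

/-!
# The top level: the input statements
-/

set_option autoImplicit false

namespace Pool.Agent.V7

open Finset Module Pool.Agent.H51.TB Pool.Agent.V7.ST Topology

/-- GAMMA: at general positions of the points a form of the level `k = M - 1` which satisfies their
conditions is zero if its part of degree `k` in the variables of the blocks `0, …, k - 1` is. -/
def GAMMA (M c k : ℕ) : Prop :=
  ∃ e : ℝ, 0 < e ∧ ∃ n₀ : ℕ, ∀ n : ℕ, n₀ ≤ n → ∀ (κ : Type) [Fintype κ] (rest : κ → Kd),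
    Cls0 M c k n e (fun τ => ((univ : Finset κ).val.map rest).count τ) →
    Gn κ (Fin n ⊕ Fin n) fun p => ∀ f ∈ (LS M (blk c n) k).V rest p,
      (∀ a : {a // a ∈ Ex (blk c n) (2 * M - 1) k},
        ∑ s ∈ univ.filter (fun s => blk c n s < k), a.1 s ≤ k → f a = 0) → f = 0

/-- BETA: near some position of the points (none of the type `range k`) the solutions with
coefficient vectors in a proper subspace `F ≠ 0` are too few. -/
def BETA (M c k : ℕ) : Prop :=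
  ∃ δ : ℝ, 0 < δ ∧ ∃ e : ℝ, 0 < e ∧ ∃ n₀ : ℕ, ∀ n : ℕ, n₀ ≤ n →
    ∀ (m : ℕ) (φ : (Fin k × Fin c) ⊕ Fin m ≃ Fin n), Top.IsB φ (blk c n) →
    ∀ (κ : Type) [Fintype κ] (rest : κ → Kd),
    Cls0 M c k n e (fun τ => ((univ : Finset κ).val.map rest).count τ) →
    (∀ i, rest i ≠ Kd.ord M (range k)) →
    ∃ p₁ : κ → Fin n ⊕ Fin n → ℂ, ∀ᶠ p in 𝓝 p₁, ∀ F : Submodule ℂ ((Fin k → Fin c) → ℂ),
      F ≠ ⊥ → F ≠ ⊤ → (finrank ℂ (Top.SF φ ((LS M (blk c n) k).V rest p) F) : ℝ) ≤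
        (1 - δ) * finrank ℂ F * ((n : ℝ) ^ M / (((2 * M - 1).choose M : ℝ) * (M.factorial : ℝ)))

/-- The virtual dimension of the points which are not of the type `range k`. -/
def VAS (M c k : ℕ) : Prop :=
  ∃ K : ℝ, 0 < K ∧ ∃ n₀ : ℕ, ∀ n : ℕ, n₀ ≤ n → ∀ e : ℝ, 0 ≤ e → e ≤ 1 → ∀ N : Kd → ℕ,
    Cls0 M c k n e N → N (.ord M (range k)) = 0 →
    |(vN M c k n N : ℝ) - (c : ℝ) ^ k *
      ((n : ℝ) ^ M / (((2 * M - 1).choose M : ℝ) * (M.factorial : ℝ)))| ≤
      (K * e + K / n) * (n : ℝ) ^ M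

/-- The numbering of the variables. -/
def phn (c k n : ℕ) (h : k * c ≤ n) : (Fin k × Fin c) ⊕ Fin (n - k * c) ≃ Fin n :=
  ((Equiv.sumCongr finProdFinEquiv (Equiv.refl _)).trans finSumFinEquiv).trans
    (finCongr (Nat.add_sub_cancel' h))

theorem phn_inl (c k n : ℕ) (h : k * c ≤ n) (x : Fin k × Fin c) :
    (phn c k n h (Sum.inl x)).1 = x.2 + c * x.1 := rfl

theorem phn_inr (c k n : ℕ) (h : k * c ≤ n) (t : Fin (n - k * c)) :
    (phn c k n h (Sum.inr t)).1 = k * c + t := rfl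

theorem isB_phn (c k n : ℕ) (hc : 0 < c) (h : k * c ≤ n) : Top.IsB (phn c k n h) (blk c n) := by
  constructor
  · intro x
    show (phn c k n h (Sum.inl x)).1 / c = x.1
    rw [phn_inl, Nat.add_mul_div_left _ _ hc, Nat.div_eq_of_lt x.2.2, zero_add]
  · intro t
    show k ≤ (phn c k n h (Sum.inr t)).1 / c
    rw [phn_inr, Nat.le_div_iff_mul_le hc]
    omega

end Pool.Agent.V7
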