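import Pool.Agent.V7.Top.Prop
import Pool.Agent.V7.Top.Vas
import Pool.Agent.V7.GA.Inp

/-!
# The top level: exactness from ALPHA and BETA
-/

set_option autoImplicit false

namespace Pool.Agent.V7

/-- Exactness on the top level, from independence (ALPHA) and the slopes (BETA). -/
theorem prop_top_of (M : ℕ) (hM : 2 ≤ M)
    (hA : ∃ c₀ L : ℕ, 1 ≤ L ∧ ∀ c, c₀ ≤ c → L ∣ c → ∀ j < M, OJ M c j)
    (hB : ∃ c₀ L : ℕ, 1 ≤ L ∧ ∀ c, c₀ ≤ c → L ∣ c → BETA M c (M - 1)) :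
    ∃ c₀ L : ℕ, 1 ≤ L ∧ ∀ c, c₀ ≤ c → L ∣ c → PROP M c (M - 1) := by
  obtain ⟨c₁, L₁, hL₁, h₁⟩ := hA
  obtain ⟨c₂, L₂, hL₂, h₂⟩ := hB
  refine ⟨c₁ + c₂ + 2 * (2 * M - 1).choose M * M + 1, L₁ * L₂, Nat.mul_pos hL₁ hL₂,
    fun c hc hL => ?_⟩
  have hk : M - 1 + 1 = M := by omega
  have hc1 : 1 ≤ c := by omega
  exact prop_of M c (M - 1) hM hk hc1 (fun n hn => bb_self c (M - 1) n hn)
    (h₁ c (by omega) (dvd_trans (Dvd.intro _ rfl) hL) (M - 1) (by omega))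
    (GA.gamma_inp M c (M - 1) hk hM (by omega))
    (h₂ c (by omega) (dvd_trans (Dvd.intro_left _ rfl) hL))
    (vas M c (M - 1) hM hk hc1)

end Pool.Agent.V7
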