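import Pool.Agent.V7.Top.Inp
import Pool.Agent.V7.F1

/-!
# Exactness on the top level
-/

set_option autoImplicit false

namespace Pool.Agent.V7

open Finset Module Pool.Agent.H51.TB Pool.Agent.V7.ST Topology

theorem choose_add_le (M a s : ℕ) :
    (a + s).choose (M + 1) ≤ a.choose (M + 1) + s * (a + s).choose M := by
  induction s with
  | zero => simp
  | succ s ih =>
    have h1 : (a + (s + 1)).choose (M + 1) = (a + s).choose M + (a + s).choose (M + 1) :=
      Nat.choose_succ_succ' _ _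
    have h2 : (a + s).choose M ≤ (a + (s + 1)).choose M := Nat.choose_le_choose M (by omega)
    have h3 : s * (a + s).choose M ≤ s * (a + (s + 1)).choose M := Nat.mul_le_mul_left _ h2
    rw [h1, add_mul, one_mul]
    omega

/-- The hypothesis `h1` of `top_gen`. -/
theorem top_h1 {M m n r N₀ : ℕ} (hM : 1 ≤ M) (hmn : m ≤ n) (hMn : M ≤ n)
    (h : r * (2 * n) ^ (M - 1) < N₀) :
    (m + M - 1).choose M < N₀ + (m - r + M - 1).choose M := by
  obtain ⟨M', rfl⟩ : ∃ M', M = M' + 1 := ⟨M - 1, by omega⟩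
  obtain ⟨s, hs⟩ : ∃ s, m + (M' + 1) - 1 = (m - r + (M' + 1) - 1) + s := ⟨m - (m - r), by omega⟩
  have hsr : s ≤ r := by omega
  have h1 := choose_add_le M' (m - r + (M' + 1) - 1) s
  rw [← hs] at h1
  have h2 : (m + (M' + 1) - 1).choose M' ≤ (2 * n) ^ M' := by
    refine (Nat.choose_le_pow _ _).trans ?_
    exact Nat.pow_le_pow_left (by omega) _
  have h3 : s * (m + (M' + 1) - 1).choose M' ≤ r * (2 * n) ^ M' := Nat.mul_le_mul hsr h2
  rw [Nat.add_sub_cancel] at h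
  omega

/-- The choice of the numbers. -/
theorem nums {M D r : ℕ} (hM : 1 ≤ M) (hD : 1 ≤ D) {Q δ K : ℝ} (hQ : 0 < Q) (hδ : 0 < δ)
    (hδ1 : δ ≤ 1) (hK : 0 < K) : ∃ e₀ : ℝ, 0 < e₀ ∧ e₀ ≤ 1 ∧ ∃ n₀ : ℕ, 1 ≤ n₀ ∧ ∀ n : ℕ, n₀ ≤ n →
      ∀ e : ℝ, 0 ≤ e → e ≤ e₀ → ∃ N₀ : ℕ, r * (2 * n) ^ (M - 1) < N₀ ∧
        (1 - δ) * ((n : ℝ) ^ M / Q) + D < N₀ ∧
        (D : ℝ) * (N₀ + 1) + (K * e + K / n) * (n : ℝ) ^ M ≤ D * ((n : ℝ) ^ M / Q) := by
  have hD' : (1 : ℝ) ≤ D := by exact_mod_cast hD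
  refine ⟨min 1 (D * δ / (8 * K * Q)), lt_min one_pos (by positivity), min_le_left _ _, ?_⟩
  obtain ⟨n₁, hn₁⟩ := exists_nat_ge (4 * Q / δ + 2 * (D + 1) * Q / δ +
    2 * Q * (r * 2 ^ (M - 1) + 1) + 8 * K * Q / (D * δ))
  refine ⟨n₁ + 1, by omega, fun n hn e he he' => ?_⟩
  have hn0 : 1 ≤ n := by omega
  have hnR : (1 : ℝ) ≤ n := by exact_mod_cast hn0
  have hn' : 4 * Q / δ + 2 * (D + 1) * Q / δ + 2 * Q * (r * 2 ^ (M - 1) + 1) +
      8 * K * Q / (D * δ) ≤ (n : ℝ) := by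
    refine hn₁.trans ?_
    exact_mod_cast (by omega : n₁ ≤ n)
  have p1 : (0 : ℝ) ≤ 4 * Q / δ := by positivity
  have p2 : (0 : ℝ) ≤ 2 * (D + 1) * Q / δ := by positivity
  have p3 : (0 : ℝ) ≤ 2 * Q * (r * 2 ^ (M - 1) + 1) := by positivity
  have p4 : (0 : ℝ) ≤ 8 * K * Q / (D * δ) := by positivity
  have q1 : 4 * Q / δ ≤ n := by linarith
  have q2 : 2 * (D + 1) * Q / δ ≤ n := by linarith
  have q3 : 2 * Q * (r * 2 ^ (M - 1) + 1) ≤ n := by linarith
  have q4 : 8 * K * Q / (D * δ) ≤ n := by linarith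
  set X : ℝ := (n : ℝ) ^ M / Q with hX
  have hpow : (n : ℝ) ^ M = n * (n : ℝ) ^ (M - 1) := by
    rw [← pow_succ', Nat.sub_add_cancel hM]
  have hpow1 : (1 : ℝ) ≤ (n : ℝ) ^ (M - 1) := one_le_pow₀ hnR
  have hXn : (n : ℝ) / Q ≤ X := by
    rw [hX]
    apply div_le_div_of_nonneg_right _ hQ.le
    rw [hpow]
    nlinarith
  have hXQ : (n : ℝ) ^ M = Q * X := by
    rw [hX]
    field_simp
  have hX0 : 0 < X := lt_of_lt_of_le (by positivity) hXn
  have a1 : 4 / δ ≤ X := by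
    refine le_trans ?_ hXn
    rw [le_div_iff₀ hQ]
    calc 4 / δ * Q = 4 * Q / δ := by ring
      _ ≤ n := q1
  have a2 : 2 * (D + 1) / δ ≤ X := by
    refine le_trans ?_ hXn
    rw [le_div_iff₀ hQ]
    calc 2 * (D + 1) / δ * Q = 2 * (D + 1) * Q / δ := by ring
      _ ≤ n := q2
  have a1' : 4 ≤ δ * X := by
    rw [div_le_iff₀ hδ] at a1
    linarith
  have a2' : 2 * (D + 1) ≤ δ * X := by
    rw [div_le_iff₀ hδ] at a2
    linarith
  have a3 : (r : ℝ) * (2 * n) ^ (M - 1) + 1 ≤ X / 2 := by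
    rw [hX, le_div_iff₀ two_pos, le_div_iff₀ hQ, hpow]
    have b1 : (r : ℝ) * (2 * n) ^ (M - 1) + 1 ≤ (r * 2 ^ (M - 1) + 1) * (n : ℝ) ^ (M - 1) := by
      rw [mul_pow]
      nlinarith
    have b2 : ((r : ℝ) * (2 * n) ^ (M - 1) + 1) * 2 * Q ≤
        (2 * Q * (r * 2 ^ (M - 1) + 1)) * (n : ℝ) ^ (M - 1) := by
      have := mul_le_mul_of_nonneg_left b1 (by positivity : (0 : ℝ) ≤ 2 * Q)
      nlinarith
    exact b2.trans (mul_le_mul_of_nonneg_right q3 (by positivity))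
  have a4 : K / n * Q ≤ D * δ / 8 := by
    rw [div_mul_eq_mul_div, div_le_iff₀ (by positivity)]
    rw [div_le_iff₀ (by positivity)] at q4
    nlinarith
  have a5 : K * e * Q ≤ D * δ / 8 := by
    have := he'.trans (min_le_right _ _)
    rw [le_div_iff₀ (by positivity)] at this
    nlinarith
  have hY0 : 0 ≤ (1 - δ / 2) * X := mul_nonneg (by linarith) hX0.le
  have hf1 := Nat.floor_le hY0
  have hf2 := Nat.lt_floor_add_one ((1 - δ / 2) * X)
  refine ⟨⌊(1 - δ / 2) * X⌋₊, ?_, ?_, ?_⟩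
  · have h : ((r * (2 * n) ^ (M - 1) : ℕ) : ℝ) < (⌊(1 - δ / 2) * X⌋₊ : ℝ) := by
      push_cast
      nlinarith
    exact_mod_cast h
  · nlinarith
  · rw [hXQ]
    have b1 : (K * e + K / n) * (Q * X) ≤ D * δ / 4 * X := by
      have : (K * e + K / n) * Q ≤ D * δ / 4 := by
        calc (K * e + K / n) * Q = K * e * Q + K / n * Q := by ring
          _ ≤ D * δ / 8 + D * δ / 8 := add_le_add a5 a4
          _ = D * δ / 4 := by ring
      calc (K * e + K / n) * (Q * X) = ((K * e + K / n) * Q) * X := by ring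
        _ ≤ D * δ / 4 * X := mul_le_mul_of_nonneg_right this hX0.le
    have b2 : (D : ℝ) * (⌊(1 - δ / 2) * X⌋₊ + 1) ≤ D * ((1 - δ / 2) * X + 1) := by
      apply mul_le_mul_of_nonneg_left _ (by linarith)
      linarith
    nlinarith

theorem Cls0.wk {M c j n : ℕ} {e e' : ℝ} {N : Kd → ℕ} (h : Cls0 M c j n e N) (he : e ≤ e') :
    Cls0 M c j n e' N where
  ok := h.ok
  big I hI hI' := (h.big I hI hI').trans (mul_le_mul_of_nonneg_right he (by positivity))
  swp i hi I hI := (h.swp i hi I hI).trans (mul_le_mul_of_nonneg_right (by linarith) (by positivity))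
  sml μ h1 h2 I hI := (h.sml μ h1 h2 I hI).trans (mul_le_mul_of_nonneg_right he (by positivity))

/-- Without the points of the type `range k`. -/
theorem Cls0.flt {M c k n : ℕ} {e : ℝ} {s : Multiset Kd}
    (h : Cls0 M c k n e fun τ => s.count τ) :
    Cls0 M c k n e fun τ => (s.filter fun τ => τ ≠ Kd.ord M (range k)).count τ := by
  have hc : ∀ τ, τ ≠ Kd.ord M (range k) →
      (s.filter fun τ => τ ≠ Kd.ord M (range k)).count τ = s.count τ := by
    intro τ hτ
    rw [Multiset.count_filter, if_pos hτ]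
  refine ⟨fun τ hτ => ?_, fun I hI hI' => ?_, fun i hi I hI => ?_, fun μ h1 h2 I hI => ?_⟩
  · refine h.ok τ fun h0 => hτ ?_
    have h1 : (s.filter fun τ => τ ≠ Kd.ord M (range k)).count τ ≤ s.count τ :=
      Multiset.count_le_of_le τ (Multiset.filter_le _ _)
    exact Nat.le_zero.1 (h1.trans h0.le)
  · have h1 := h.big I hI hI'
    unfold tot at h1 ⊢
    simp only at h1 ⊢
    rw [hc _ (by
      intro h2
      rw [Kd.ord.injEq] at h2
      exact hI' h2.2)]
    rw [sum_congr rfl fun i _ => hc (Kd.sw i I) (by simp)]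
    exact h1
  · have h1 := h.swp i hi I hI
    rw [hc _ (by simp)]
    exact h1
  · have h3 := h.sml μ h1 h2 I hI
    rw [hc _ (by
      intro h4
      rw [Kd.ord.injEq] at h4
      omega)]
    exact h3

/-- **TOP.** Exactness on the level `k = M - 1`. -/
theorem prop_of (M c k : ℕ) (hM : 2 ≤ M) (hk : k + 1 = M) (hc : 1 ≤ c)
    (hbb : ∀ n, k * c ≤ n → bb c k k n = c ^ k)
    (hO : OJ M c k) (hG : GAMMA M c k) (hB : BETA M c k) (hV : VAS M c k) : PROP M c k := by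
  classical
  obtain ⟨eA, heA, nA, hA⟩ := hO
  obtain ⟨eG, heG, nG, hG⟩ := hG
  obtain ⟨δ, hδ, eB, heB, nB, hB⟩ := hB
  obtain ⟨K, hK, nV, hV⟩ := hV
  have hD : 1 ≤ c ^ k := Nat.one_le_pow _ _ hc
  have hC : 0 < (2 * M - 1).choose M := Nat.choose_pos (by omega)
  set Q : ℝ := ((2 * M - 1).choose M : ℝ) * (M.factorial : ℝ) with hQdef
  have hQ : 0 < Q := by
    have h1 : (0 : ℝ) < (2 * M - 1).choose M := by exact_mod_cast hC
    positivity
  obtain ⟨e₀, he₀, he₀1, n₀, hn₀1, hnum⟩ := nums (M := M) (D := c ^ k) (r := 2 * c ^ k - 2)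
    (by omega) hD hQ (lt_min hδ one_pos) (min_le_right δ 1) hK
  refine ⟨min e₀ (min eA (min eG eB)), lt_min he₀ (lt_min heA (lt_min heG heB)),
    n₀ + nA + nG + nB + nV + k * c + 1 + M, fun n hn s hs => ?_⟩
  set e := min e₀ (min eA (min eG eB)) with he
  have he0 : 0 ≤ e := (lt_min he₀ (lt_min heA (lt_min heG heB))).le
  have e1 : e ≤ e₀ := min_le_left _ _
  have e2 : e ≤ eA := (min_le_right _ _).trans (min_le_left _ _)
  have e3 : e ≤ eG := (min_le_right _ _).trans ((min_le_right _ _).trans (min_le_left _ _))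
  have e4 : e ≤ eB := (min_le_right _ _).trans ((min_le_right _ _).trans (min_le_right _ _))
  have hkc : k * c < n := by omega
  set τ₀ := Kd.ord M (range k) with hτ₀
  set r := s.filter fun τ => τ ≠ τ₀ with hr
  set N := s.count τ₀ with hN
  have hsr : s = r + Multiset.replicate N τ₀ := by
    have h1 := Multiset.filter_add_not (fun τ => τ ≠ τ₀) s
    have h2 : (s.filter fun τ => ¬ (τ ≠ τ₀)) = Multiset.replicate N τ₀ := by
      rw [hN, ← Multiset.filter_eq']
      refine Multiset.filter_congr fun τ _ => ?_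
      exact not_not
    rw [h2] at h1
    exact h1.symm
  have hrc : Cls0 M c k n e fun τ => r.count τ := hs.toCls0.flt
  have hrok : ∀ τ ∈ r, τ ∈ kds M k := fun τ hτ => hrc.ok τ (Multiset.count_ne_zero.2 hτ)
  have hr0 : τ₀ ∉ r := fun h => (Multiset.mem_filter.1 h).2 rfl
  obtain ⟨rest, hrest, hgd⟩ := exists_conf (LS M (blk c n) k) r
  -- the virtual dimension
  have hvr := hV n (by omega) e he0 (e1.trans he₀1) (fun τ => r.count τ) hrc
    (Multiset.count_eq_zero.2 hr0)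
  rw [← vd_eq_vN M c k n r hrok] at hvr
  have hle : vd M c k n r ≤ gM (LS M (blk c n) k) r :=
    vd_le_gM_blk (by omega) hc hkc r fun τ hτ => mem_kds.1 (hrok τ hτ)
  have hge : (gM (LS M (blk c n) k) r : ℤ) ≤ vd M c k n r :=
    hA n (by omega) r (hrc.wk e2) hr0
  have hvs : vd M c k n s = vd M c k n r - N * (c ^ k : ℕ) := by
    unfold vd
    rw [hsr, Multiset.map_add, Multiset.sum_add, Multiset.map_replicate, Multiset.sum_replicate]
    have h1 : wt M c n τ₀ = c ^ k := by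
      show bb c (M - 1) (range k).card n = c ^ k
      rw [card_range, show M - 1 = k by omega, hbb n hkc.le]
    rw [h1, smul_eq_mul]
    push_cast
    ring
  -- the numbers
  obtain ⟨N₀, hN1, hN2, hN3⟩ := hnum n (by omega) e he0 e1
  have hX0 : (0 : ℝ) ≤ (n : ℝ) ^ M / Q := by positivity
  have h3 : c ^ k * (N₀ + 1) ≤ (LS M (blk c n) k).gd rest := by
    rw [hgd]
    have h4 : ((c ^ k * (N₀ + 1) : ℕ) : ℝ) ≤ ((vd M c k n r : ℤ) : ℝ) := by
      push_cast
      push_cast at hN3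
      have h5 := (abs_le.1 hvr).1
      linarith
    have h5 : ((c ^ k * (N₀ + 1) : ℕ) : ℤ) ≤ vd M c k n r := by exact_mod_cast h4
    have h6 := h5.trans hle
    exact_mod_cast h6
  have hcnt : (fun τ => ((univ : Finset (Fin r.toList.length)).val.map rest).count τ) =
      fun τ => r.count τ := by
    rw [hrest]
  have key := Top.top_gen (isB_phn c k n hc hkc.le) hk rest
    (hG n (by omega) _ rest (by rw [hcnt]; exact hrc.wk e3)) N₀
    (top_h1 (by omega) (Nat.sub_le _ _) (by omega) hN1) (by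
      obtain ⟨p₁, hp₁⟩ := hB n (by omega) _ (phn c k n hkc.le) (isB_phn c k n hc hkc.le) _ rest
        (by rw [hcnt]; exact hrc.wk e4) (fun i h => hr0 (by
          rw [← hrest, Multiset.mem_map]
          exact ⟨i, Finset.mem_univ_val i, h⟩))
      refine ⟨p₁, hp₁.mono fun p hp F hF hF' => ?_⟩
      have h4 := hp F hF hF'
      have hf : 1 ≤ finrank ℂ F := Nat.one_le_iff_ne_zero.2 fun h => hF (Submodule.finrank_eq_zero.1 h)
      have hf' : (1 : ℝ) ≤ finrank ℂ F := by exact_mod_cast hf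
      have h5 : ((finrank ℂ F * (c ^ k - finrank ℂ F) : ℕ) : ℝ) ≤ finrank ℂ F * (c ^ k : ℕ) := by
        have : finrank ℂ F * (c ^ k - finrank ℂ F) ≤ finrank ℂ F * c ^ k :=
          Nat.mul_le_mul_left _ (Nat.sub_le _ _)
        exact_mod_cast this
      have h6 : (1 - δ) * (finrank ℂ F : ℝ) * ((n : ℝ) ^ M / Q) ≤
          (1 - min δ 1) * (finrank ℂ F : ℝ) * ((n : ℝ) ^ M / Q) := by
        apply mul_le_mul_of_nonneg_right _ hX0
        apply mul_le_mul_of_nonneg_right _ (by linarith)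
        have := min_le_left δ 1
        linarith
      have h7 : (finrank ℂ F : ℝ) * ((1 - min δ 1) * ((n : ℝ) ^ M / Q) + (c ^ k : ℕ)) <
          finrank ℂ F * N₀ := mul_lt_mul_of_pos_left hN2 (by linarith)
      have h8 : ((finrank ℂ (Top.SF (phn c k n hkc.le) ((LS M (blk c n) k).V rest p) F) +
          finrank ℂ F * (c ^ k - finrank ℂ F) : ℕ) : ℝ) < ((finrank ℂ F * N₀ : ℕ) : ℝ) := by
        rw [Nat.cast_add, Nat.cast_mul (finrank ℂ F) N₀]
        nlinarith
      exact_mod_cast h8) h3 N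
  -- conclusion
  have hgs : gM (LS M (blk c n) k) s =
      (LS M (blk c n) k).gd (Sum.elim rest fun _ : Fin N => τ₀) := by
    rw [gd_eq_gM, map_elim, hrest, ST.map_const, Fintype.card_fin, ← hsr]
  rw [hgs, hvs]
  rw [hgd] at key
  have h9 : ((gM (LS M (blk c n) k) r - c ^ k * N : ℕ) : ℤ) ≤
      max 0 ((gM (LS M (blk c n) k) r : ℤ) - (c ^ k * N : ℕ)) := by
    omega
  have h10 : ((LS M (blk c n) k).gd (Sum.elim rest fun _ : Fin N => τ₀) : ℤ) ≤
      max 0 ((gM (LS M (blk c n) k) r : ℤ) - (c ^ k * N : ℕ)) := by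
    refine le_trans ?_ h9
    exact_mod_cast key
  refine h10.trans ?_
  apply max_le_max le_rfl
  have h11 : ((c ^ k * N : ℕ) : ℤ) = N * (c ^ k : ℕ) := by
    push_cast
    ring
  rw [h11]
  linarith

end Pool.Agent.V7
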