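import Pool.Agent.V7.Top.Gam
import Pool.Agent.V7.BE.Proj
import Pool.Agent.H51.TB.Gd

/-!
# The top level: from the conditions at general positions to exactness

`SF φ V F` is the space of the `f ∈ V` all of whose coefficient vectors with respect to the last
variables lie in `F`.
-/

set_option autoImplicit false
set_option linter.unusedSectionVars false

namespace Pool.Agent.V7.Top

open Finset Module MvPolynomial Pool.Agent.H51.TB Pool.Agent.V7 Pool.Agent.H54.V7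

variable {ν : Type} [Fintype ν] [DecidableEq ν] {k c m : ℕ}

/-- The solutions whose coefficient vectors lie in `F`. -/
noncomputable def SF (φ : (Fin k × Fin c) ⊕ Fin m ≃ ν) {A : Finset (ν → ℕ)}
    (V : Submodule ℂ ({e // e ∈ A} → ℂ)) (F : Submodule ℂ ((Fin k → Fin c) → ℂ)) :
    Submodule ℂ ({e // e ∈ A} → ℂ) where
  carrier := {f | f ∈ V ∧ ∀ α, (fun a => coeff α (Gam φ f a)) ∈ F}
  add_mem' := by
    rintro f f' ⟨h1, h2⟩ ⟨h3, h4⟩
    refine ⟨V.add_mem h1 h3, fun α => ?_⟩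
    have h5 : (fun a => coeff α (Gam φ (f + f') a)) =
        (fun a => coeff α (Gam φ f a)) + fun a => coeff α (Gam φ f' a) := by
      funext a
      simp
    rw [h5]
    exact F.add_mem (h2 α) (h4 α)
  zero_mem' := by
    refine ⟨V.zero_mem, fun α => ?_⟩
    have h5 : (fun a => coeff α (Gam φ (0 : {e // e ∈ A} → ℂ) a)) = 0 := by
      funext a
      simp
    rw [h5]
    exact F.zero_mem
  smul_mem' := by
    rintro x f ⟨h1, h2⟩
    refine ⟨V.smul_mem x h1, fun α => ?_⟩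
    have h5 : (fun a => coeff α (Gam φ (x • f) a)) = x • fun a => coeff α (Gam φ f a) := by
      funext a
      simp
    rw [h5]
    exact F.smul_mem x (h2 α)

theorem mem_SF_coeff (φ : (Fin k × Fin c) ⊕ Fin m ≃ ν) {A : Finset (ν → ℕ)}
    (V : Submodule ℂ ({e // e ∈ A} → ℂ)) (F : Submodule ℂ ((Fin k → Fin c) → ℂ))
    (f : {e // e ∈ A} → ℂ) :
    f ∈ SF φ V F ↔ f ∈ V ∧ ∀ α, (fun a => coeff α (Gam φ f a)) ∈ F := Iff.rfl

/-- The exponent of `∏ i, x (i, a i)` times `z ^ α`. -/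
def sl (φ : (Fin k × Fin c) ⊕ Fin m ≃ ν) (a : Fin k → Fin c) (α : Fin m → ℕ) : ν → ℕ :=
  fun s => Sum.elim (fun x : Fin k × Fin c => if x.2 = a x.1 then 1 else 0) α (φ.symm s)

theorem sl_inl (φ : (Fin k × Fin c) ⊕ Fin m ≃ ν) (a : Fin k → Fin c) (α : Fin m → ℕ)
    (x : Fin k × Fin c) : sl φ a α (φ (Sum.inl x)) = if x.2 = a x.1 then 1 else 0 := by
  simp [sl]

theorem sl_inr (φ : (Fin k × Fin c) ⊕ Fin m ≃ ν) (a : Fin k → Fin c) (α : Fin m → ℕ)
    (t : Fin m) : sl φ a α (φ (Sum.inr t)) = α t := by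
  simp [sl]

theorem sl_HasX (φ : (Fin k × Fin c) ⊕ Fin m ≃ ν) (a : Fin k → Fin c) (α : Fin m → ℕ) :
    HasX φ a (sl φ a α) := fun x => sl_inl φ a α x

theorem sl_mem {φ : (Fin k × Fin c) ⊕ Fin m ≃ ν} {β : ν → ℕ} (hβ : IsB φ β) {M : ℕ}
    (hk : k + 1 = M) (a : Fin k → Fin c) {α : Fin m → ℕ} (h : ∑ t, α t = M) :
    sl φ a α ∈ Pool.Agent.V7.Ex β (2 * M - 1) k := by
  rw [Pool.Agent.V7.mem_Ex]
  constructor
  · rw [sum_split φ, (sl_HasX φ a α).sum]
    simp only [sl_inr]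
    omega
  · intro i hi
    refine ⟨φ (Sum.inl (⟨i, hi⟩, a ⟨i, hi⟩)), hβ.1 _, ?_⟩
    rw [sl_inl, if_pos rfl]
    exact one_ne_zero

theorem coeff_Gam_sl {φ : (Fin k × Fin c) ⊕ Fin m ≃ ν} {β : ν → ℕ} (hβ : IsB φ β) {M : ℕ}
    (hk : k + 1 = M) (f : {e // e ∈ Pool.Agent.V7.Ex β (2 * M - 1) k} → ℂ) (a : Fin k → Fin c)
    (α : Fin m →₀ ℕ) (h : ∑ t, α t = M) :
    coeff α (Gam φ f a) = f ⟨sl φ a α, sl_mem hβ hk a h⟩ := by
  rw [← coeff_Gam φ f a ⟨sl φ a α, sl_mem hβ hk a h⟩ (sl_HasX φ a α)]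
  congr 1
  ext t
  rw [zp_apply]
  exact (sl_inr φ a α t).symm

/-- `SF` in terms of slices. -/
theorem mem_SF {φ : (Fin k × Fin c) ⊕ Fin m ≃ ν} {β : ν → ℕ} (hβ : IsB φ β) {M : ℕ}
    (hk : k + 1 = M) (V : Submodule ℂ ({e // e ∈ Pool.Agent.V7.Ex β (2 * M - 1) k} → ℂ))
    (F : Submodule ℂ ((Fin k → Fin c) → ℂ))
    (f : {e // e ∈ Pool.Agent.V7.Ex β (2 * M - 1) k} → ℂ) :
    f ∈ SF φ V F ↔ f ∈ V ∧ ∀ (α : Fin m → ℕ) (h : ∑ t, α t = M),
      (fun a => f ⟨sl φ a α, sl_mem hβ hk a h⟩) ∈ F := by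
  rw [mem_SF_coeff]
  refine and_congr_right fun _ => ?_
  constructor
  · intro h1 α h
    have h2 := h1 (Finsupp.equivFunOnFinite.symm α)
    have h3 : (fun a => coeff (Finsupp.equivFunOnFinite.symm α) (Gam φ f a)) =
        fun a => f ⟨sl φ a α, sl_mem hβ hk a h⟩ := by
      funext a
      exact coeff_Gam_sl hβ hk f a (Finsupp.equivFunOnFinite.symm α) h
    rwa [h3] at h2
  · intro h1 α
    by_cases h : ∑ t, α t = M
    · have h3 : (fun a => coeff α (Gam φ f a)) = fun a => f ⟨sl φ a α, sl_mem hβ hk a h⟩ := by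
        funext a
        exact coeff_Gam_sl hβ hk f a α h
      rw [h3]
      exact h1 α h
    · have h3 : (fun a => coeff α (Gam φ f a)) = 0 := by
        funext a
        refine (Gam_hom φ hk β f a).coeff_eq_zero ?_
        rw [Finsupp.degree_eq_sum]
        exact h
      rw [h3]
      exact F.zero_mem

/-- Points of the type `range k` on the solutions at a fixed position of the other points. -/
theorem top_lin {φ : (Fin k × Fin c) ⊕ Fin m ≃ ν} {β : ν → ℕ} (hβ : IsB φ β) {M : ℕ}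
    (hk : k + 1 = M) {κ : Type} (rest : κ → Pool.Agent.V7.Kd) (p₀ : κ → ν ⊕ ν → ℂ)
    (hinj : ∀ f ∈ (LS M β k).V rest p₀, Gam φ f = 0 → f = 0) (N₀ : ℕ)
    (h1 : (m + M - 1).choose M < N₀ + (m - (2 * c ^ k - 2) + M - 1).choose M)
    (h2 : ∀ F : Submodule ℂ ((Fin k → Fin c) → ℂ), F ≠ ⊥ → F ≠ ⊤ →
      finrank ℂ (SF φ ((LS M β k).V rest p₀) F) + finrank ℂ F * (c ^ k - finrank ℂ F) <
        finrank ℂ F * N₀)
    (h3 : c ^ k * (N₀ + 1) ≤ finrank ℂ ((LS M β k).V rest p₀)) (N : ℕ) :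
    (LS M β k).gd (Sum.elim rest fun _ : Fin N => Pool.Agent.V7.Kd.ord M (range k)) ≤
      finrank ℂ ((LS M β k).V rest p₀) - c ^ k * N := by
  classical
  let g : Fin (c ^ k) ≃ (Fin k → Fin c) := finFunctionFinEquiv.symm
  let L : ((Fin k → Fin c) → MvPolynomial (Fin m) ℂ) →ₗ[ℂ]
    (Fin (c ^ k) → MvPolynomial (Fin m) ℂ) := LinearMap.funLeft ℂ _ g
  let Q : ((Fin k → Fin c) → ℂ) ≃ₗ[ℂ] (Fin (c ^ k) → ℂ) := LinearEquiv.funCongrLeft ℂ ℂ g
  refine assemble (LS M β k) rest (Pool.Agent.V7.Kd.ord M (range k)) (M := M) (L ∘ₗ Gam φ)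
    (fun f a => Gam_hom φ hk β f (g a)) (posz φ)
    (fun z f hf a => htop hβ hk z f hf (g a)) p₀ ?_ N₀ h1 ?_ h3 N
  · intro f hf h4
    refine hinj f hf (funext fun a => ?_)
    have h5 := congrFun h4 (g.symm a)
    have h6 : Gam φ f (g (g.symm a)) = 0 := h5
    rwa [g.apply_symm_apply] at h6
  · intro F' hF' hF''
    set F : Submodule ℂ ((Fin k → Fin c) → ℂ) := F'.comap Q.toLinearMap with hF
    have hfr : finrank ℂ F = finrank ℂ F' := by
      have h4 : F.map Q.toLinearMap = F' :=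
        Submodule.map_comap_eq_self (by
          rw [LinearMap.range_eq_top.2 Q.surjective]
          exact le_top)
      rw [← h4]
      exact (LinearEquiv.finrank_map_eq Q F).symm
    have hb : F ≠ ⊥ := by
      intro h
      rw [h, finrank_bot] at hfr
      exact hF' (Submodule.finrank_eq_zero.1 hfr.symm)
    have ht : F ≠ ⊤ := by
      intro h
      apply hF''
      rw [eq_top_iff]
      intro y _
      have h4 : Q.symm y ∈ F := by
        rw [h]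
        trivial
      have h5 : Q (Q.symm y) ∈ F' := h4
      rwa [Q.apply_symm_apply] at h5
    have h4 := h2 F hb ht
    rw [hfr] at h4
    refine lt_of_le_of_lt ?_ h4
    gcongr
    refine le_trans ?_ (Submodule.finrank_map_le (L ∘ₗ Gam φ) _)
    refine Submodule.finrank_mono ?_
    rintro G ⟨⟨f, hf, rfl⟩, h5⟩
    refine ⟨f, ⟨hf, fun α => ?_⟩, rfl⟩
    exact h5 α

open Topology in
/-- The same with conditions at general positions and near one position. -/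
theorem top_gen {φ : (Fin k × Fin c) ⊕ Fin m ≃ ν} {β : ν → ℕ} (hβ : IsB φ β) {M : ℕ}
    (hk : k + 1 = M) {κ : Type} [Fintype κ] (rest : κ → Pool.Agent.V7.Kd)
    (hG : Gn κ (ν ⊕ ν) fun p => ∀ f ∈ (LS M β k).V rest p,
      (∀ e : {e // e ∈ Pool.Agent.V7.Ex β (2 * M - 1) k},
        ∑ s ∈ univ.filter (fun s => β s < k), e.1 s ≤ k → f e = 0) → f = 0) (N₀ : ℕ)
    (h1 : (m + M - 1).choose M < N₀ + (m - (2 * c ^ k - 2) + M - 1).choose M)
    (h2 : ∃ p₁ : κ → ν ⊕ ν → ℂ, ∀ᶠ p in 𝓝 p₁, ∀ F : Submodule ℂ ((Fin k → Fin c) → ℂ),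
      F ≠ ⊥ → F ≠ ⊤ → finrank ℂ (SF φ ((LS M β k).V rest p) F) +
        finrank ℂ F * (c ^ k - finrank ℂ F) < finrank ℂ F * N₀)
    (h3 : c ^ k * (N₀ + 1) ≤ (LS M β k).gd rest) (N : ℕ) :
    (LS M β k).gd (Sum.elim rest fun _ : Fin N => Pool.Agent.V7.Kd.ord M (range k)) ≤
      (LS M β k).gd rest - c ^ k * N := by
  obtain ⟨p₁, hp₁⟩ := h2
  have h4 := hG.and (gn_gd (LS M β k) rest)
  obtain ⟨p, hp, hp1, hp2⟩ := Pool.Agent.V7.BE.Gn.near h4 p₁ _ hp₁
  rw [← hp2] at h3 ⊢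
  refine top_lin hβ hk rest p ?_ N₀ h1 hp h3 N
  intro f hf hf0
  exact hp1 f hf fun e he => Gam_zero hβ f hf0 e he

end Pool.Agent.V7.Top
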