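import Pool.Agent.V7.Top.Main
import Pool.Agent.H51.TB.Gd

/-!
# From the exactness of the evaluation of vector valued forms to systems of points
-/

namespace Pool.Agent.V7.Top

open Module MvPolynomial Pool.Agent.H51.TB

/-- The points of type `top` impose the expected number of conditions on the solutions for the
points `rest`, if their conditions are the vanishing of a vector valued form at a point. -/
theorem assemble {E ν T : Type} [Fintype E] (S : Sys E ν T) {κ : Type} (rest : κ → T) (top : T)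
    {b m M : ℕ} (Γ : (E → ℂ) →ₗ[ℂ] (Fin b → MvPolynomial (Fin m) ℂ))
    (hhom : ∀ f a, (Γ f a).IsHomogeneous M) (pos : (Fin m → ℂ) → ν → ℂ)
    (htop : ∀ (z : Fin m → ℂ) (f : E → ℂ), f ∈ S.V (fun _ : Unit => top) (fun _ => pos z) →
      ∀ a, eval z (Γ f a) = 0)
    (p₀ : κ → ν → ℂ) (hinj : ∀ f ∈ S.V rest p₀, Γ f = 0 → f = 0) (N₀ : ℕ)
    (h1 : (m + M - 1).choose M < N₀ + (m - (2 * b - 2) + M - 1).choose M)
    (h2 : ∀ F : Submodule ℂ (Fin b → ℂ), F ≠ ⊥ → F ≠ ⊤ →
      finrank ℂ (secE ((S.V rest p₀).map Γ) F) + finrank ℂ F * (b - finrank ℂ F) <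
        finrank ℂ F * N₀)
    (h3 : b * (N₀ + 1) ≤ finrank ℂ (S.V rest p₀)) (N : ℕ) :
    S.gd (Sum.elim rest fun _ : Fin N => top) ≤ finrank ℂ (S.V rest p₀) - b * N := by
  classical
  set V := (S.V rest p₀).map Γ with hV
  have hfin : FiniteDimensional ℂ V := inferInstance
  let Γ' : S.V rest p₀ →ₗ[ℂ] (Fin b → MvPolynomial (Fin m) ℂ) := Γ.domRestrict _
  have hΓ' : Function.Injective Γ' := by
    rw [← LinearMap.ker_eq_bot, eq_bot_iff]
    intro f hf
    rw [Submodule.mem_bot]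
    exact Subtype.ext (hinj f.1 f.2 hf)
  have hfr : finrank ℂ V = finrank ℂ (S.V rest p₀) := by
    have h4 : LinearMap.range Γ' = V := LinearMap.range_domRestrict _ _
    rw [← h4]
    exact LinearMap.finrank_range_of_inj hΓ'
  obtain ⟨l, hl⟩ := top_exact V (M := M) (by
    rintro _ ⟨f, _, rfl⟩ a
    exact hhom f a) N₀ h1 h2 (by rw [hfr]; exact h3) N
  rw [hfr] at hl
  refine le_trans ?_ hl
  refine (gd_le S _ (Sum.elim p₀ fun s => pos (l s))).trans ?_
  have hle : ∀ f ∈ S.V (Sum.elim rest fun _ : Fin N => top) (Sum.elim p₀ fun s => pos (l s)),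
      f ∈ S.V rest p₀ ∧ Γ f ∈ vanish V l := by
    intro f hf
    rw [V_elim, Submodule.mem_inf] at hf
    refine ⟨hf.1, Submodule.mem_map_of_mem hf.1, fun s a => htop (l s) f ?_ a⟩
    intro _ r
    exact hf.2 s r
  have hfd : FiniteDimensional ℂ (vanish V l) :=
    Submodule.finiteDimensional_of_le (S₂ := V) fun G hG => hG.1
  let Δ : S.V (Sum.elim rest fun _ : Fin N => top) (Sum.elim p₀ fun s => pos (l s)) →ₗ[ℂ]
      vanish V l := (Γ.domRestrict _).codRestrict (vanish V l) fun f => (hle f.1 f.2).2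
  refine LinearMap.finrank_le_finrank_of_injective (f := Δ) ?_
  rw [← LinearMap.ker_eq_bot, eq_bot_iff]
  intro f hf
  rw [Submodule.mem_bot]
  have h4 : Γ f.1 = 0 := congrArg Subtype.val hf
  exact Subtype.ext (hinj f.1 (hle f.1 f.2).1 h4)

end Pool.Agent.V7.Top
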