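import Pool.Agent.V7.Top.Basic

/-!
# The chain rule for polynomials, and values at independent points
-/

namespace Pool.Agent.V7.Top

open MvPolynomial

variable {σ : Type*}

/-- A derivation applied to the coefficients of a polynomial. -/
noncomputable def Dc (D : Derivation ℚ ℂ ℂ) (p : MvPolynomial σ ℂ) : MvPolynomial σ ℂ :=
  ∑ α ∈ p.support, monomial α (D (coeff α p))

theorem coeff_Dc (D : Derivation ℚ ℂ ℂ) (p : MvPolynomial σ ℂ) (α : σ →₀ ℕ) :
    coeff α (Dc D p) = D (coeff α p) := by
  classical
  rw [Dc, coeff_sum]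
  simp only [coeff_monomial]
  rw [Finset.sum_ite_eq' p.support α]
  split_ifs with h
  · rfl
  · rw [notMem_support_iff.1 h, map_zero]

theorem Dc_add (D : Derivation ℚ ℂ ℂ) (p q : MvPolynomial σ ℂ) :
    Dc D (p + q) = Dc D p + Dc D q := by
  ext α
  simp [coeff_Dc]

theorem Dc_C (D : Derivation ℚ ℂ ℂ) (a : ℂ) : Dc D (C a : MvPolynomial σ ℂ) = C (D a) := by
  classical
  ext α
  rw [coeff_Dc, coeff_C, coeff_C]
  split_ifs
  · rfl
  · exact map_zero D

theorem Dc_mul_X (D : Derivation ℚ ℂ ℂ) (p : MvPolynomial σ ℂ) (i : σ) :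
    Dc D (p * X i) = Dc D p * X i := by
  classical
  ext α
  rw [coeff_Dc, coeff_mul_X', coeff_mul_X']
  split_ifs
  · rw [coeff_Dc]
  · exact map_zero D

/-- The chain rule. -/
theorem chain [Fintype σ] (D : Derivation ℚ ℂ ℂ) (x : σ → ℂ) (p : MvPolynomial σ ℂ) :
    D (eval x p) = eval x (Dc D p) + ∑ i, eval x (pderiv i p) * D (x i) := by
  classical
  induction p using MvPolynomial.induction_on with
  | C a => simp [Dc_C]
  | add p q hp hq =>
    rw [map_add, map_add, hp, hq, Dc_add, map_add]
    simp only [map_add, add_mul, Finset.sum_add_distrib]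
    ring
  | mul_X p j hp =>
    have h0 : eval x (p * X j) = eval x p * x j := by rw [map_mul, eval_X]
    have h0' : eval x (Dc D p * X j) = eval x (Dc D p) * x j := by rw [map_mul, eval_X]
    rw [Dc_mul_X, h0, h0', Derivation.leibniz, hp]
    have h1 : ∀ i, eval x (pderiv i (p * X j)) * D (x i) =
        x j * (eval x (pderiv i p) * D (x i)) + if i = j then eval x p * D (x j) else 0 := by
      intro i
      rw [pderiv_mul, map_add, map_mul, map_mul, eval_X, pderiv_X]
      by_cases h : i = j
      · subst h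
        simp
        ring
      · simp [h]
        ring
    simp only [h1, Finset.sum_add_distrib, ← Finset.mul_sum, Finset.sum_ite_eq',
      Finset.mem_univ, if_true, smul_eq_mul]
    ring

theorem Dc_eq_zero {D : Derivation ℚ ℂ ℂ} {p : MvPolynomial σ ℂ} (h : ∀ α, D (coeff α p) = 0) :
    Dc D p = 0 := by
  ext α
  rw [coeff_Dc, h, coeff_zero]

theorem pderiv_const {D : Derivation ℚ ℂ ℂ} {p : MvPolynomial σ ℂ}
    (h : ∀ α, D (coeff α p) = 0) (i : σ) (α : σ →₀ ℕ) : D (coeff α (pderiv i p)) = 0 := by
  rw [coeff_pderiv, Derivation.leibniz, h]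
  have h1 : D ((α i : ℂ) + 1) = 0 := by
    have h2 : ((α i : ℂ) + 1) = ((α i + 1 : ℕ) : ℂ) := by push_cast; rfl
    rw [h2]
    exact D.map_natCast _
  rw [h1]
  simp

/-- A polynomial all of whose derivatives vanish is constant. -/
theorem eq_C_of_pderiv [Fintype σ] {p : MvPolynomial σ ℂ} (h : ∀ i, pderiv i p = 0) :
    p = C (coeff 0 p) := by
  classical
  ext α
  rw [coeff_C]
  split_ifs with h0
  · rw [h0]
  · obtain ⟨i, hi⟩ : ∃ i, α i ≠ 0 := by
      by_contra hcon
      push Not at hcon
      apply h0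
      ext i
      rw [hcon i]
      rfl
    have h1 : coeff (α - Finsupp.single i 1) (pderiv i p) = 0 := by rw [h i, coeff_zero]
    rw [coeff_pderiv] at h1
    have h2 : α - Finsupp.single i 1 + Finsupp.single i 1 = α := by
      apply tsub_add_cancel_of_le
      rw [Finsupp.single_le_iff]
      omega
    rw [h2] at h1
    rcases mul_eq_zero.1 h1 with h3 | h3
    · exact h3
    · exfalso
      have h4 : ((((α - Finsupp.single i 1 : σ →₀ ℕ) i + 1 : ℕ)) : ℂ) = 0 := by
        push_cast
        exact h3
      exact absurd (Nat.cast_eq_zero.1 h4) (Nat.succ_ne_zero _)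

theorem pderiv_comm (i j : σ) (p : MvPolynomial σ ℂ) :
    pderiv i (pderiv j p) = pderiv j (pderiv i p) := by
  classical
  ext α
  rw [coeff_pderiv, coeff_pderiv, coeff_pderiv, coeff_pderiv, add_right_comm]
  by_cases h : i = j
  · rw [h]
  · have h1 : (α + Finsupp.single i 1 : σ →₀ ℕ) j = α j := by
      rw [Finsupp.add_apply, Finsupp.single_eq_of_ne (Ne.symm h), add_zero]
    have h2 : (α + Finsupp.single j 1 : σ →₀ ℕ) i = α i := by
      rw [Finsupp.add_apply, Finsupp.single_eq_of_ne h, add_zero]
    rw [h1, h2]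
    ring

theorem totalDegree_pderiv_lt' {p : MvPolynomial σ ℂ} (i : σ) (h : pderiv i p ≠ 0) :
    (pderiv i p).totalDegree < p.totalDegree := by
  classical
  obtain ⟨α, hα, hd⟩ : ∃ α ∈ (pderiv i p).support,
      (α.sum fun _ e => e) = (pderiv i p).totalDegree := by
    have h1 : (pderiv i p).support.Nonempty := by
      rw [Finset.nonempty_iff_ne_empty, Ne, support_eq_empty]
      exact h
    obtain ⟨α, hα, h2⟩ := Finset.exists_mem_eq_sup (pderiv i p).support h1
      (fun s => s.sum fun _ e => e)
    exact ⟨α, hα, h2.symm⟩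
  rw [mem_support_iff, coeff_pderiv] at hα
  have h3 : coeff (α + Finsupp.single i 1) p ≠ 0 := left_ne_zero_of_mul hα
  have h4 := le_totalDegree (mem_support_iff.2 h3)
  rw [Finsupp.sum_add_index' (fun _ => rfl) (fun _ _ _ => rfl),
    Finsupp.sum_single_index rfl] at h4
  omega

/-- A polynomial with constant coefficients, in independent variables, does not vanish. -/
theorem gen_eval [Fintype σ] [DecidableEq σ] {S : Set ℂ} (J : Finset σ) (x : σ → ℂ)
    (Dl : σ → Derivation ℚ ℂ ℂ) (hD : ∀ i ∈ J, Dl i ∈ Kd S)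
    (hx : ∀ i ∈ J, ∀ i' ∈ J, Dl i (x i') = if i = i' then 1 else 0) (n : ℕ) :
    ∀ p : MvPolynomial σ ℂ, p.totalDegree ≤ n → (∀ α, ∀ D ∈ Kd S, D (coeff α p) = 0) →
      (∀ i ∉ J, pderiv i p = 0) → eval x p = 0 → p = 0 := by
  classical
  induction n with
  | zero =>
    intro p hp _ _ h0
    rw [totalDegree_eq_zero_iff_eq_C.1 (Nat.le_zero.1 hp)] at h0 ⊢
    rw [eval_C] at h0
    rw [h0, C_0]
  | succ n ih =>
    intro p hp hc hv h0
    have h1 : ∀ i, pderiv i p = 0 := by
      intro i
      by_cases hi : i ∈ J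
      · by_contra hne
        apply hne
        apply ih
        · have := totalDegree_pderiv_lt' i hne
          omega
        · intro α D hD'
          exact pderiv_const (fun β => hc β D hD') i α
        · intro j hj
          rw [pderiv_comm, hv j hj, map_zero]
        · have h2 := chain (Dl i) x p
          rw [h0, map_zero, Dc_eq_zero (fun α => hc α _ (hD i hi)), map_zero, zero_add] at h2
          rw [Finset.sum_eq_single i] at h2
          · rw [hx i hi i hi, if_pos rfl, mul_one] at h2
            exact h2.symm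
          · intro j _ hj
            by_cases hjJ : j ∈ J
            · rw [hx i hi j hjJ, if_neg (Ne.symm hj), mul_zero]
            · rw [hv j hjJ, map_zero, zero_mul]
          · intro h
            exact absurd (Finset.mem_univ i) h
      · exact hv i hi
    rw [eq_C_of_pderiv h1] at h0 ⊢
    rw [eval_C] at h0
    rw [h0, C_0]

end Pool.Agent.V7.Top
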