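import Pool.Agent.V7.Top.LemN

/-!
# The zero locus of a vector valued form has the expected codimension
-/

namespace Pool.Agent.V7.Top

open Module MvPolynomial

variable {R b m M : ℕ}

/-- The vector valued form with coordinates `u` with respect to the family `H`. -/
noncomputable def GH (H : Fin R → Fin b → Ex m M → ℂ) (u : Fin R → ℂ) (a : Fin b) : Ex m M → ℂ :=
  ∑ j, u j • H j a

theorem GH_apply (H : Fin R → Fin b → Ex m M → ℂ) (u : Fin R → ℂ) (a : Fin b) (α : Ex m M) :
    GH H u a α = ∑ j, u j * H j a α := by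
  simp [GH]

theorem GH_const {S : Set ℂ} {H : Fin R → Fin b → Ex m M → ℂ}
    (hH : ∀ D ∈ Kd S, ∀ j a α, D (H j a α) = 0) {D : Derivation ℚ ℂ ℂ} (hD : D ∈ Kd S)
    (u : Fin R → ℂ) (a : Fin b) (α : Ex m M) :
    D (GH H u a α) = GH H (fun j => D (u j)) a α := by
  rw [GH_apply, GH_apply, map_sum]
  apply Finset.sum_congr rfl
  intro j _
  rw [Derivation.leibniz, hH D hD, smul_zero, zero_add, smul_eq_mul, mul_comm]

/-- The vector of the coefficients of a monomial. -/
noncomputable def col (H : Fin R → Fin b → Ex m M → ℂ) (u : Fin R → ℂ) (α : Ex m M) :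
    Fin b → ℂ := fun a => GH H u a α

/-- The span of the vectors of coefficients. -/
noncomputable def Es (H : Fin R → Fin b → Ex m M → ℂ) (u : Fin R → ℂ) :
    Submodule ℂ (Fin b → ℂ) := Submodule.span ℂ (Set.range (col H u))

theorem col_mem (H : Fin R → Fin b → Ex m M → ℂ) (u : Fin R → ℂ) (α : Ex m M) :
    col H u α ∈ Es H u := Submodule.subset_span ⟨α, rfl⟩

theorem lin_expand (L : (Ex m M → ℂ) →ₗ[ℂ] ℂ) (h : Ex m M → ℂ) :
    L h = ∑ α, h α * L (Pi.single α 1) := by
  classical
  conv_lhs => rw [pi_eq_sum_univ' h, map_sum]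
  apply Finset.sum_congr rfl
  intro α _
  rw [map_smul, smul_eq_mul]

theorem swap (H : Fin R → Fin b → Ex m M → ℂ) (u : Fin R → ℂ) (γ : (Fin b → ℂ) →ₗ[ℂ] ℂ)
    (L : (Ex m M → ℂ) →ₗ[ℂ] ℂ) :
    L (fun α => γ (col H u α)) = γ (fun a => L (GH H u a)) := by
  classical
  have h1 : (fun a => L (GH H u a)) = ∑ α, L (Pi.single α 1) • col H u α := by
    funext a
    rw [lin_expand, Finset.sum_apply]
    apply Finset.sum_congr rfl
    intro α _
    rw [Pi.smul_apply, smul_eq_mul, mul_comm]
    rfl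
  rw [h1, map_sum, lin_expand]
  apply Finset.sum_congr rfl
  intro α _
  rw [map_smul, smul_eq_mul, mul_comm]

/-- Evaluation at a point as a linear functional of the coefficients. -/
noncomputable def evL (w : Fin m → ℂ) : (Ex m M → ℂ) →ₗ[ℂ] ℂ :=
  (MvPolynomial.aeval w).toLinearMap.comp Pg

theorem evL_apply (w : Fin m → ℂ) (g : Ex m M → ℂ) : evL w g = eval w (Pg g) := by
  simp [evL, MvPolynomial.aeval_eq_eval]

/-- The value of a partial derivative as a linear functional of the coefficients. -/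
noncomputable def evdL (w : Fin m → ℂ) (i : Fin m) : (Ex m M → ℂ) →ₗ[ℂ] ℂ :=
  (MvPolynomial.aeval w).toLinearMap.comp ((pderiv i).toLinearMap.comp Pg)

theorem evdL_apply (w : Fin m → ℂ) (i : Fin m) (g : Ex m M → ℂ) :
    evdL w i g = eval w (pderiv i (Pg g)) := by
  simp [evdL, MvPolynomial.aeval_eq_eval]

/-- The differential of a vector valued form. -/
noncomputable def dG (H : Fin R → Fin b → Ex m M → ℂ) (u : Fin R → ℂ) (w : Fin m → ℂ) :
    (Fin m → ℂ) →ₗ[ℂ] (Fin b → ℂ) :=
  LinearMap.pi fun a => ∑ i, (eval w (pderiv i (Pg (GH H u a)))) • LinearMap.proj i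

theorem dG_apply (H : Fin R → Fin b → Ex m M → ℂ) (u : Fin R → ℂ) (w v : Fin m → ℂ)
    (a : Fin b) : dG H u w v a = ∑ i, eval w (pderiv i (Pg (GH H u a))) * v i := by
  simp [dG]

theorem dG_single (H : Fin R → Fin b → Ex m M → ℂ) (u : Fin R → ℂ) (w : Fin m → ℂ)
    (i : Fin m) : dG H u w (Pi.single i 1) = fun a => eval w (pderiv i (Pg (GH H u a))) := by
  classical
  funext a
  rw [dG_apply, Finset.sum_eq_single i]
  · rw [Pi.single_eq_same, mul_one]
  · intro j _ hj
    rw [Pi.single_eq_of_ne hj, mul_zero]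
  · intro h
    exact absurd (Finset.mem_univ i) h

theorem dG_range (H : Fin R → Fin b → Ex m M → ℂ) (u : Fin R → ℂ) (w : Fin m → ℂ) :
    LinearMap.range (dG H u w) ≤ Es H u := by
  classical
  rintro _ ⟨v, rfl⟩
  let L : (Ex m M → ℂ) →ₗ[ℂ] ℂ := ∑ i, v i • evdL w i
  have h1 : dG H u w v = ∑ α, L (Pi.single α 1) • col H u α := by
    funext a
    have h2 : dG H u w v a = L (GH H u a) := by
      rw [dG_apply]
      simp only [L, LinearMap.sum_apply, LinearMap.smul_apply, evdL_apply, smul_eq_mul]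
      apply Finset.sum_congr rfl
      intro i _
      ring
    rw [h2, lin_expand, Finset.sum_apply]
    apply Finset.sum_congr rfl
    intro α _
    rw [Pi.smul_apply, smul_eq_mul, mul_comm]
    rfl
  rw [h1]
  exact Submodule.sum_mem _ fun α _ => Submodule.smul_mem _ _ (col_mem H u α)

theorem im_le_ker_dG {S : Set ℂ} {H : Fin R → Fin b → Ex m M → ℂ}
    (hH : ∀ D ∈ Kd S, ∀ j a α, D (H j a α) = 0) (u : Fin R → ℂ) (w : Fin m → ℂ)
    (hw : ∀ a, eval w (Pg (GH H u a)) = 0) :
    im (S ∪ Set.range u) w ≤ LinearMap.ker (dG H u w) := by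
  rintro _ ⟨D, hD, rfl⟩
  rw [LinearMap.mem_ker]
  funext a
  rw [dG_apply]
  have h1 := chain D w (Pg (GH H u a))
  have h2 : Dc D (Pg (GH H u a)) = 0 := by
    rw [Dc_Pg]
    have h3 : (fun α => D (GH H u a α)) = 0 := by
      funext α
      rw [GH_const hH (Kd_anti Set.subset_union_left hD), GH_apply]
      apply Finset.sum_eq_zero
      intro j _
      rw [hD (u j) (Or.inr ⟨j, rfl⟩), zero_mul]
    rw [h3, map_zero]
  rw [hw, map_zero, h2, map_zero, zero_add] at h1
  exact h1.symm

/-- The functionals on the span of the vectors of coefficients, as coefficients of a form. -/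
noncomputable def Psi (H : Fin R → Fin b → Ex m M → ℂ) (u : Fin R → ℂ) :
    Dual ℂ (Es H u) →ₗ[ℂ] (Ex m M → ℂ) where
  toFun δ α := δ ⟨col H u α, col_mem H u α⟩
  map_add' _ _ := rfl
  map_smul' _ _ := rfl

theorem rk_comb_lt {S : Set ℂ} {H : Fin R → Fin b → Ex m M → ℂ}
    (hH : ∀ D ∈ Kd S, ∀ j a α, D (H j a α) = 0) (u : Fin R → ℂ) (γ : (Fin b → ℂ) →ₗ[ℂ] ℂ)
    (α₀ : Ex m M) (h1 : γ (col H u α₀) = 1) :
    rk (S ∪ Set.range u) (fun α => γ (col H u α)) < finrank ℂ (Es H u) := by
  classical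
  have hle : im (S ∪ Set.range u) (fun α => γ (col H u α)) ≤
      LinearMap.range (Psi H u) ⊓ LinearMap.ker (LinearMap.proj α₀) := by
    rintro _ ⟨D, hD, rfl⟩
    refine ⟨?_, ?_⟩
    · let γ' : (Fin b → ℂ) →ₗ[ℂ] ℂ := ∑ a, (D (γ (Pi.single a 1))) • LinearMap.proj a
      refine ⟨γ'.comp (Es H u).subtype, ?_⟩
      funext α
      have h2 : γ (col H u α) = ∑ a, GH H u a α * γ (Pi.single a 1) := by
        conv_lhs => rw [pi_eq_sum_univ' (col H u α), map_sum]
        apply Finset.sum_congr rfl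
        intro a _
        rw [map_smul, smul_eq_mul]
        congr 2
      have h3 : D (γ (col H u α)) = ∑ a, GH H u a α * D (γ (Pi.single a 1)) := by
        rw [h2, map_sum]
        apply Finset.sum_congr rfl
        intro a _
        have h4 : GH H (fun j => D (u j)) a α = 0 := by
          rw [GH_apply]
          apply Finset.sum_eq_zero
          intro j _
          rw [hD (u j) (Or.inr ⟨j, rfl⟩), zero_mul]
        rw [Derivation.leibniz, GH_const hH (Kd_anti Set.subset_union_left hD), h4, smul_zero,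
          add_zero, smul_eq_mul]
      show γ' (col H u α) = D (γ (col H u α))
      rw [h3]
      simp only [γ', LinearMap.sum_apply, LinearMap.smul_apply, LinearMap.proj_apply, smul_eq_mul]
      apply Finset.sum_congr rfl
      intro a _
      rw [mul_comm]
      rfl
    · show D (γ (col H u α₀)) = 0
      rw [h1]
      exact D.map_one_eq_zero
  have hlt : LinearMap.range (Psi H u) ⊓ LinearMap.ker (LinearMap.proj α₀) <
      LinearMap.range (Psi H u) := by
    refine lt_of_le_of_ne inf_le_left ?_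
    intro h
    have h2 : Psi H u (γ.comp (Es H u).subtype) ∈ LinearMap.range (Psi H u) ⊓
        LinearMap.ker (LinearMap.proj (R := ℂ) (φ := fun _ => ℂ) α₀) := by
      rw [h]
      exact ⟨_, rfl⟩
    have h3 : γ (col H u α₀) = 0 := h2.2
    rw [h1] at h3
    exact one_ne_zero h3
  have h2 := Submodule.finrank_mono hle
  have h3 := Submodule.finrank_lt_finrank_of_lt hlt
  have h4 := LinearMap.finrank_range_le (Psi H u)
  rw [Subspace.dual_finrank_eq] at h4
  have h5 : rk (S ∪ Set.range u) (fun α => γ (col H u α)) =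
    finrank ℂ (im (S ∪ Set.range u) (fun α => γ (col H u α))) := rfl
  omega

theorem claimZ {κ : Type*} [Fintype κ] {S : Set ℂ} {H : Fin R → Fin b → Ex m M → ℂ}
    (hH : ∀ D ∈ Kd S, ∀ j a α, D (H j a α) = 0) (u : Fin R → ℂ)
    (l : κ → Fin m → ℂ) (hl : rk S (fun q : κ × Fin m => l q.1 q.2) = Fintype.card κ * m)
    (hu : ∀ s a, eval (l s) (Pg (GH H u a)) = 0) (w : Fin m → ℂ)
    (hw : ∀ a, eval w (Pg (GH H u a)) = 0)
    (hN : (m + M - 1).choose M <
      Fintype.card κ + (m - (2 * finrank ℂ (Es H u) - 2) + M - 1).choose M) :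
    rk (S ∪ Set.range u) w + finrank ℂ (Es H u) ≤ m := by
  classical
  by_contra hcon
  push Not at hcon
  have h1 := Submodule.finrank_mono (im_le_ker_dG hH u w hw)
  have h2 := LinearMap.finrank_range_add_finrank_ker (dG H u w)
  rw [finrank_fintype_fun_eq_card, Fintype.card_fin] at h2
  have h3 : rk (S ∪ Set.range u) w = finrank ℂ (im (S ∪ Set.range u) w) := rfl
  have h4 : LinearMap.range (dG H u w) < Es H u := by
    refine lt_of_le_of_ne (dG_range H u w) ?_
    intro h
    rw [h] at h2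
    omega
  obtain ⟨x, hx, hx'⟩ := SetLike.exists_of_lt h4
  obtain ⟨f, hf, hf'⟩ := Submodule.exists_dual_map_eq_bot_of_notMem hx' inferInstance
  have h5 : ∃ α₀, f (col H u α₀) ≠ 0 := by
    by_contra hno
    push Not at hno
    apply hf
    have h6 : Es H u ≤ LinearMap.ker f := by
      rw [Es, Submodule.span_le]
      rintro _ ⟨α, rfl⟩
      exact hno α
    exact h6 hx
  obtain ⟨α₀, hα₀⟩ := h5
  let γ : (Fin b → ℂ) →ₗ[ℂ] ℂ := (f (col H u α₀))⁻¹ • f
  have hγ : γ (col H u α₀) = 1 := by
    simp only [γ, LinearMap.smul_apply, smul_eq_mul]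
    exact inv_mul_cancel₀ hα₀
  have hγr : ∀ v, γ (dG H u w v) = 0 := by
    intro v
    have h6 : f (dG H u w v) ∈ (LinearMap.range (dG H u w)).map f := ⟨_, ⟨v, rfl⟩, rfl⟩
    rw [hf', Submodule.mem_bot] at h6
    simp only [γ, LinearMap.smul_apply, h6, smul_zero]
  set g : Ex m M → ℂ := fun α => γ (col H u α) with hg
  have hg0 : g ≠ 0 := by
    intro h
    have h6 : g α₀ = 1 := hγ
    rw [h] at h6
    exact zero_ne_one h6
  have hgz : ∀ x, (∀ a, eval x (Pg (GH H u a)) = 0) → eval x (Pg g) = 0 := by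
    intro x hx
    rw [← evL_apply, hg, swap]
    have h6 : (fun a => evL x (GH H u a)) = 0 := by
      funext a
      rw [evL_apply, hx]
      rfl
    rw [h6, map_zero]
  have hgd : ∀ i, eval w (pderiv i (Pg g)) = 0 := by
    intro i
    rw [← evdL_apply, hg, swap]
    have h6 : (fun a => evdL w i (GH H u a)) = dG H u w (Pi.single i 1) := by
      rw [dG_single]
      funext a
      rw [evdL_apply]
    rw [h6, hγr]
  have h7 := rk_comb_lt hH u γ α₀ hγ
  have h8 := rk_le_add (S ∪ Set.range u) g w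
  have h9 : rk (S ∪ Set.range u ∪ Set.range g) w ≤ rk (S ∪ Set.range g) w := by
    apply rk_anti
    intro x hx
    rcases hx with hx | hx
    · exact Or.inl (Or.inl hx)
    · exact Or.inr hx
  have h10 := lemS S g w (hgz w hw) hgd
  have h11 := lemN S g hg0 l hl (fun s => hgz (l s) (hu s))
  have h12 : (m - (2 * finrank ℂ (Es H u) - 2) + M - 1).choose M ≤
      (rk (S ∪ Set.range g) w + M - 1).choose M := by
    apply Nat.choose_le_choose
    rw [← hg] at h7
    omega
  omega

end Pool.Agent.V7.Top
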