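import Mathlib

/-!
# Derivations of the complex numbers

For a countable set `S` of complex numbers and every `k` there are complex numbers `t 0, …, t (k-1)`
and derivations of `ℂ` which vanish on `S` and are dual to them.
-/

namespace Pool.Agent.V7.Top

open Module

/-- The derivations of `ℂ` which vanish on `S`. -/
noncomputable def Kd (S : Set ℂ) : Submodule ℂ (Derivation ℚ ℂ ℂ) where
  carrier := {D | ∀ x ∈ S, D x = 0}
  add_mem' := by
    intro D D' h h' x hx
    have h1 : D x = 0 := h x hx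
    have h2 : D' x = 0 := h' x hx
    simp [h1, h2]
  zero_mem' := by
    intro x _
    rfl
  smul_mem' := by
    intro c D h x hx
    have h1 : D x = 0 := h x hx
    simp [h1]

theorem mem_Kd {S : Set ℂ} {D : Derivation ℚ ℂ ℂ} : D ∈ Kd S ↔ ∀ x ∈ S, D x = 0 := Iff.rfl

theorem ext_lift {R A B : Type*} [CommRing R] [CommRing A] [CommRing B] [Algebra R A]
    [Algebra.FormallySmooth R A] (φ : R →+* B) (π : B →+* A) (hπ : Function.Surjective π)
    (hker : ∀ r s, π r = 0 → π s = 0 → r * s = 0) (hcomp : ∀ r, π (φ r) = algebraMap R A r) :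
    ∃ ψ : A →+* B, (∀ r, ψ (algebraMap R A r) = φ r) ∧ ∀ a, π (ψ a) = a := by
  let _ : Algebra R B := φ.toAlgebra
  let g : B →ₐ[R] A := { π with commutes' := fun r => hcomp r }
  have hg' : IsNilpotent (RingHom.ker (g : B →+* A)) := by
    refine ⟨2, ?_⟩
    rw [pow_two, Ideal.zero_eq_bot, eq_bot_iff, Ideal.mul_le]
    intro r hr s hs
    rw [RingHom.mem_ker] at hr hs
    rw [Ideal.mem_bot]
    exact hker r s hr hs
  let f : A →ₐ[R] B := Algebra.FormallySmooth.liftOfSurjective (AlgHom.id R A) g hπ hg'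
  refine ⟨f.toRingHom, fun r => f.commutes r, fun a => ?_⟩
  exact Algebra.FormallySmooth.liftOfSurjective_apply (AlgHom.id R A) g hπ hg' a

/-- The projection of the dual numbers. -/
noncomputable def ext_pi : TrivSqZeroExt ℂ ℂ →+* ℂ := (TrivSqZeroExt.fstHom ℂ ℂ ℂ).toRingHom

theorem ext_ker_nil (r s : TrivSqZeroExt ℂ ℂ) (hr : ext_pi r = 0) (hs : ext_pi s = 0) :
    r * s = 0 := by
  have hr' : r.fst = 0 := hr
  have hs' : s.fst = 0 := hs
  apply TrivSqZeroExt.ext
  · simp [hr']
  · simp [hr', hs']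

/-- A ring homomorphism to the dual numbers over the identity is a derivation. -/
theorem ext_toDer (ψ : ℂ →+* TrivSqZeroExt ℂ ℂ) (h : ∀ a, (ψ a).fst = a) :
    ∃ D : Derivation ℚ ℂ ℂ, ∀ a, D a = (ψ a).snd := by
  let L : ℂ →+ ℂ := { toFun := fun a => (ψ a).snd, map_zero' := by simp, map_add' := by simp }
  refine ⟨Derivation.mk' L.toRatLinearMap ?_, fun a => rfl⟩
  intro a b
  show (ψ (a * b)).snd = a • (ψ b).snd + b • (ψ a).snd
  rw [map_mul, TrivSqZeroExt.snd_mul, h, h]
  simp [mul_comm]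

open scoped IntermediateField.algebraAdjoinAdjoin in
/-- Derivations with arbitrary values on a transcendence basis. -/
theorem exists_der_basis {K : Type*} [Field K] [Algebra K ℂ] [CharZero K] {ι : Type*} {v : ι → ℂ}
    (hv : IsTranscendenceBasis K v) (a : ι → ℂ) :
    ∃ D : Derivation ℚ ℂ ℂ, (∀ x : K, D (algebraMap K ℂ x) = 0) ∧ ∀ i, D (v i) = a i := by
  have h1 : Algebra.FormallySmooth (Algebra.adjoin K (Set.range v))
      (IntermediateField.adjoin K (Set.range v)) := .of_isLocalization (nonZeroDivisors _)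
  have halg : Algebra.IsAlgebraic (IntermediateField.adjoin K (Set.range v)) ℂ :=
    hv.isAlgebraic_field
  have h2 : Algebra.FormallyEtale (IntermediateField.adjoin K (Set.range v)) ℂ :=
    Algebra.FormallyEtale.of_isSeparable _ _
  have h3 : Algebra.FormallySmooth (Algebra.adjoin K (Set.range v)) ℂ :=
    .comp _ (IntermediateField.adjoin K (Set.range v)) _
  let φ₀ : MvPolynomial ι K →ₐ[K] TrivSqZeroExt ℂ ℂ :=
    MvPolynomial.aeval (fun i => TrivSqZeroExt.inl (v i) + TrivSqZeroExt.inr (a i))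
  let φ : Algebra.adjoin K (Set.range v) →+* TrivSqZeroExt ℂ ℂ :=
    (φ₀.comp (hv.1.aevalEquiv.symm : _ →ₐ[K] MvPolynomial ι K)).toRingHom
  have hφ : ∀ p : MvPolynomial ι K, φ (hv.1.aevalEquiv p) = φ₀ p := by
    intro p
    show φ₀ (hv.1.aevalEquiv.symm (hv.1.aevalEquiv p)) = φ₀ p
    rw [AlgEquiv.symm_apply_apply]
  have hcomp : ∀ r, ext_pi (φ r) =
      algebraMap (Algebra.adjoin K (Set.range v)) ℂ r := by
    intro r
    obtain ⟨p, rfl⟩ := hv.1.aevalEquiv.surjective r
    rw [hφ]
    have h4 : algebraMap (Algebra.adjoin K (Set.range v)) ℂ (hv.1.aevalEquiv p) =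
        MvPolynomial.aeval v p := hv.1.algebraMap_aevalEquiv p
    rw [h4]
    have h5 : ((TrivSqZeroExt.fstHom K ℂ ℂ).comp φ₀) = MvPolynomial.aeval v := by
      apply MvPolynomial.algHom_ext
      intro i
      simp [φ₀]
    exact DFunLike.congr_fun h5 p
  obtain ⟨ψ, hψ1, hψ2⟩ := ext_lift φ ext_pi TrivSqZeroExt.fst_surjective ext_ker_nil hcomp
  obtain ⟨D, hD⟩ := ext_toDer ψ hψ2
  refine ⟨D, ?_, ?_⟩
  · intro x
    rw [hD]
    have h6 : algebraMap K ℂ x = algebraMap (Algebra.adjoin K (Set.range v)) ℂ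
        (hv.1.aevalEquiv (MvPolynomial.C x)) := by
      rw [hv.1.algebraMap_aevalEquiv, MvPolynomial.aeval_C]
    rw [h6, hψ1, hφ]
    simp only [φ₀, MvPolynomial.aeval_C]
    rfl
  · intro i
    rw [hD]
    have h6 : v i = algebraMap (Algebra.adjoin K (Set.range v)) ℂ
        (hv.1.aevalEquiv (MvPolynomial.X i)) := by
      rw [hv.1.algebraMap_aevalEquiv, MvPolynomial.aeval_X]
    conv_lhs => rw [h6]
    rw [hψ1, hφ]
    simp [φ₀]

theorem exists_der (S : Set ℂ) (hS : S.Countable) (k : ℕ) :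
    ∃ (t : Fin k → ℂ) (D : Fin k → Derivation ℚ ℂ ℂ), (∀ i, D i ∈ Kd S) ∧
      ∀ i j, D i (t j) = if i = j then 1 else 0 := by
  classical
  let K : Subfield ℂ := Subfield.closure S
  have hK : Cardinal.mk K ≤ Cardinal.aleph0 := by
    refine (Subfield.cardinalMk_closure_le_max S).trans ?_
    simp only [max_le_iff, le_refl, and_true]
    exact hS.le_aleph0
  obtain ⟨ι, v, hv⟩ := exists_isTranscendenceBasis' K ℂ
  have hinf : Infinite ι := by
    by_contra hfin
    rw [not_infinite_iff_finite] at hfin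
    have h1 := IsAlgClosed.cardinal_le_max_transcendence_basis' v hv
    have h2 : Cardinal.mk ι ≤ Cardinal.aleph0 := (Cardinal.lt_aleph0_of_finite ι).le
    have h3 : Cardinal.mk ℂ ≤ Cardinal.aleph0 := by
      refine h1.trans ?_
      simp only [max_le_iff, le_refl, and_true]
      exact ⟨hK, h2⟩
    rw [Cardinal.mk_complex] at h3
    exact absurd h3 (not_le.2 Cardinal.aleph0_lt_continuum)
  let e : Fin k ↪ ι := (Fin.valEmbedding).trans (Infinite.natEmbedding ι)
  choose D hD1 hD2 using fun i : Fin k => exists_der_basis hv (Pi.single (e i) 1)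
  refine ⟨fun j => v (e j), D, ?_, ?_⟩
  · intro i x hx
    exact hD1 i ⟨x, Subfield.subset_closure hx⟩
  · intro i j
    rw [hD2, Pi.single_apply]
    by_cases h : i = j
    · simp [h]
    · rw [if_neg h, if_neg]
      intro h'
      exact h (e.injective h').symm

end Pool.Agent.V7.Top
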