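import Pool.Agent.V7.Top.LemS

/-!
# Forms which vanish at independent points
-/

namespace Pool.Agent.V7.Top

open Module MvPolynomial

theorem rk_prod_le {κ : Type*} [Fintype κ] {m : ℕ} (S : Set ℂ) (l : κ → Fin m → ℂ) :
    rk S (fun q : κ × Fin m => l q.1 q.2) ≤ ∑ s, rk S (l s) := by
  classical
  let Φ : im S (fun q : κ × Fin m => l q.1 q.2) →ₗ[ℂ] ((s : κ) → im S (l s)) :=
    { toFun := fun v s => ⟨fun i => v.1 (s, i), by
        obtain ⟨D, hD, hv⟩ := v.2
        exact ⟨D, hD, by rw [← hv]; rfl⟩⟩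
      map_add' := fun _ _ => rfl
      map_smul' := fun _ _ => rfl }
  have hΦ : Function.Injective Φ := by
    intro v w h
    apply Subtype.ext
    funext q
    have h1 := congrArg (fun f => ((f q.1 : im S (l q.1)) : Fin m → ℂ) q.2) h
    exact h1
  have h1 := LinearMap.finrank_le_finrank_of_injective hΦ
  rw [Module.finrank_pi_fintype] at h1
  exact h1

theorem exists_free {σ : Type*} [Fintype σ] {S : Set ℂ} (x : σ → ℂ) (n : ℕ) :
    ∀ p : MvPolynomial σ ℂ, p.totalDegree ≤ n → p ≠ 0 → eval x p = 0 →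
      (∀ α, ∀ D ∈ Kd S, D (coeff α p) = 0) →
      ∃ p' : MvPolynomial σ ℂ, (∀ α, ∀ D ∈ Kd S, D (coeff α p') = 0) ∧ eval x p' = 0 ∧
        ∃ i, eval x (pderiv i p') ≠ 0 := by
  induction n with
  | zero =>
    intro p hp hp0 h0 _
    exfalso
    apply hp0
    rw [totalDegree_eq_zero_iff_eq_C.1 (Nat.le_zero.1 hp)] at h0 ⊢
    rw [eval_C] at h0
    rw [h0, C_0]
  | succ n ih =>
    intro p hp hp0 h0 hc
    by_cases h : ∃ i, eval x (pderiv i p) ≠ 0
    · exact ⟨p, hc, h0, h⟩
    · push Not at h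
      have h1 : ∃ i, pderiv i p ≠ 0 := by
        by_contra hcon
        push Not at hcon
        apply hp0
        rw [eq_C_of_pderiv hcon] at h0 ⊢
        rw [eval_C] at h0
        rw [h0, C_0]
      obtain ⟨i, hi⟩ := h1
      have h2 := totalDegree_pderiv_lt' i hi
      exact ih (pderiv i p) (by omega) hi (h i)
        (fun α D hD => pderiv_const (fun β => hc β D hD) i α)

theorem rk_zero_lt {m M : ℕ} (S : Set ℂ) (g : Ex m M → ℂ) (hg : g ≠ 0) (x : Fin m → ℂ)
    (hz : eval x (Pg g) = 0) : rk (S ∪ Set.range g) x + 1 ≤ m := by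
  classical
  have hg' : Pg g ≠ 0 := by
    intro h
    exact hg (Pg_injective (by rw [h, map_zero]))
  obtain ⟨p, hc, h0, i, hi⟩ := exists_free (S := S ∪ Set.range g) x _ (Pg g) le_rfl hg' hz
    (fun α D hD => coeff_Pg_const (fun β => hD _ (Or.inr ⟨β, rfl⟩)) α)
  let f : (Fin m → ℂ) →ₗ[ℂ] ℂ := ∑ j, (eval x (pderiv j p)) • LinearMap.proj j
  have hf : ∀ v, f v = ∑ j, eval x (pderiv j p) * v j := by
    intro v
    simp [f]
  have hf0 : f ≠ 0 := by
    intro h
    have h1 : f (Pi.single i 1) = 0 := by rw [h]; rfl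
    rw [hf, Finset.sum_eq_single i] at h1
    · rw [Pi.single_eq_same, mul_one] at h1
      exact hi h1
    · intro j _ hj
      rw [Pi.single_eq_of_ne hj, mul_zero]
    · intro h
      exact absurd (Finset.mem_univ i) h
  have hle : im (S ∪ Set.range g) x ≤ LinearMap.ker f := by
    rintro _ ⟨D, hD, rfl⟩
    rw [LinearMap.mem_ker, hf]
    have h1 := chain D x p
    rw [h0, map_zero, Dc_eq_zero (fun α => hc α D hD), map_zero, zero_add] at h1
    exact h1.symm
  have h2 := LinearMap.finrank_range_add_finrank_ker f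
  have h3 : LinearMap.range f = ⊤ := LinearMap.range_eq_top.2 (LinearMap.surjective hf0)
  rw [h3, finrank_top, finrank_self, finrank_fintype_fun_eq_card, Fintype.card_fin] at h2
  have h4 := Submodule.finrank_mono hle
  have h5 : rk (S ∪ Set.range g) x = finrank ℂ (im (S ∪ Set.range g) x) := rfl
  omega

theorem lemN {κ : Type*} [Fintype κ] {m M : ℕ} (S : Set ℂ) (g : Ex m M → ℂ) (hg : g ≠ 0)
    (l : κ → Fin m → ℂ) (hl : rk S (fun q : κ × Fin m => l q.1 q.2) = Fintype.card κ * m)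
    (hz : ∀ s, eval (l s) (Pg g) = 0) : Fintype.card κ ≤ rk S g := by
  have h1 := rk_le_add S g (fun q : κ × Fin m => l q.1 q.2)
  have h2 := rk_prod_le (S ∪ Set.range g) l
  have h3 : ∑ s, (rk (S ∪ Set.range g) (l s) + 1) ≤ ∑ _s : κ, m :=
    Finset.sum_le_sum fun s _ => rk_zero_lt S g hg (l s) (hz s)
  rw [Finset.sum_add_distrib, Finset.sum_const, Finset.sum_const, Finset.card_univ,
    smul_eq_mul, smul_eq_mul, mul_one] at h3
  omega

end Pool.Agent.V7.Top
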