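import Pool.Agent.V7.Top.Chain

/-!
# Forms which are singular along a large locus
-/

namespace Pool.Agent.V7.Top

open Module MvPolynomial

/-- The exponents of degree `M`. -/
abbrev Ex (m M : ℕ) :=
  {α : Fin m →₀ ℕ // α ∈ Finset.finsuppAntidiag (Finset.univ : Finset (Fin m)) M}

theorem card_Ex (m M : ℕ) : Fintype.card (Ex m M) = (m + M - 1).choose M := by
  rw [Fintype.card_coe, Finset.card_finsuppAntidiag_nat_eq_choose, Finset.card_univ,
    Fintype.card_fin]

/-- The form with given coefficients. -/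
noncomputable def Pg {m M : ℕ} : (Ex m M → ℂ) →ₗ[ℂ] MvPolynomial (Fin m) ℂ :=
  ∑ α : Ex m M, (monomial α.1).comp (LinearMap.proj α)

theorem Pg_apply {m M : ℕ} (g : Ex m M → ℂ) : Pg g = ∑ α : Ex m M, monomial α.1 (g α) := by
  simp [Pg]

theorem coeff_Pg {m M : ℕ} (g : Ex m M → ℂ) (β : Ex m M) : coeff β.1 (Pg g) = g β := by
  classical
  rw [Pg_apply, coeff_sum]
  simp only [coeff_monomial]
  rw [Finset.sum_eq_single β]
  · rw [if_pos rfl]
  · intro α _ hα
    rw [if_neg]
    intro h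
    exact hα (Subtype.ext h)
  · intro h
    exact absurd (Finset.mem_univ β) h

theorem coeff_Pg' {m M : ℕ} (g : Ex m M → ℂ) (α : Fin m →₀ ℕ)
    (h : α ∉ Finset.finsuppAntidiag (Finset.univ : Finset (Fin m)) M) :
    coeff α (Pg g) = 0 := by
  classical
  rw [Pg_apply, coeff_sum]
  apply Finset.sum_eq_zero
  intro β _
  rw [coeff_monomial, if_neg]
  rintro rfl
  exact h β.2

theorem Pg_injective {m M : ℕ} : Function.Injective (Pg : (Ex m M → ℂ) →ₗ[ℂ] _) := by
  intro g g' h
  funext β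
  rw [← coeff_Pg g, h, coeff_Pg]

theorem Dc_Pg {m M : ℕ} (D : Derivation ℚ ℂ ℂ) (g : Ex m M → ℂ) :
    Dc D (Pg g) = Pg (fun α => D (g α)) := by
  classical
  ext α
  rw [coeff_Dc]
  by_cases h : α ∈ Finset.finsuppAntidiag (Finset.univ : Finset (Fin m)) M
  · have h1 := coeff_Pg g ⟨α, h⟩
    have h2 := coeff_Pg (fun α => D (g α)) ⟨α, h⟩
    simp only at h1 h2
    rw [h1, h2]
  · rw [coeff_Pg' _ _ h, coeff_Pg' _ _ h, map_zero]

theorem coeff_Pg_const {m M : ℕ} {D : Derivation ℚ ℂ ℂ} {g : Ex m M → ℂ}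
    (h : ∀ α, D (g α) = 0) (α : Fin m →₀ ℕ) : D (coeff α (Pg g)) = 0 := by
  by_cases h' : α ∈ Finset.finsuppAntidiag (Finset.univ : Finset (Fin m)) M
  · have h1 := coeff_Pg g ⟨α, h'⟩
    simp only at h1
    rw [h1, h]
  · rw [coeff_Pg' _ _ h', map_zero]

/-- Derivations dual to the pivot coordinates of a point. -/
theorem exists_dual {m : ℕ} (S : Set ℂ) (w : Fin m → ℂ) :
    ∃ (J : Finset (Fin m)) (Dl : Fin m → Derivation ℚ ℂ ℂ), J.card = rk S w ∧
      (∀ i ∈ J, Dl i ∈ Kd S) ∧ ∀ i ∈ J, ∀ i' ∈ J, Dl i (w i') = if i = i' then 1 else 0 := by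
  classical
  obtain ⟨a, b, ha, hb, hab, -⟩ := exists_pivot (im S w)
  choose Dk hDk1 hDk2 using fun k => hb k
  let Dl : Fin m → Derivation ℚ ℂ ℂ := fun i => if h : ∃ k, a k = i then Dk h.choose else 0
  have hDl : ∀ k, Dl (a k) = Dk k := by
    intro k
    have h : ∃ k', a k' = a k := ⟨k, rfl⟩
    simp only [Dl, dif_pos h]
    congr 1
    exact ha h.choose_spec
  refine ⟨Finset.univ.image a, Dl, ?_, ?_, ?_⟩
  · rw [Finset.card_image_of_injective _ ha, Finset.card_univ, Fintype.card_fin]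
    rfl
  · intro i hi
    obtain ⟨k, -, rfl⟩ := Finset.mem_image.1 hi
    rw [hDl]
    exact hDk1 k
  · intro i hi i' hi'
    obtain ⟨k, -, rfl⟩ := Finset.mem_image.1 hi
    obtain ⟨k', -, rfl⟩ := Finset.mem_image.1 hi'
    rw [hDl, ← dv_apply, hDk2, hab]
    by_cases h : k = k'
    · simp [h]
    · rw [if_neg h, if_neg]
      intro h'
      exact h (ha h')

/-- Extension by zero of the coefficients of a form in the variables of `J`. -/
noncomputable def extJ {m : ℕ} (M : ℕ) (J : Finset (Fin m)) :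
    (↥(Finset.finsuppAntidiag J M) → ℂ) →ₗ[ℂ] (Ex m M → ℂ) where
  toFun f α := if h : α.1 ∈ Finset.finsuppAntidiag J M then f ⟨α.1, h⟩ else 0
  map_add' f f' := by
    funext α
    by_cases h : α.1 ∈ Finset.finsuppAntidiag J M
    · simp only [dif_pos h, Pi.add_apply]
    · simp only [dif_neg h, Pi.add_apply, add_zero]
  map_smul' c f := by
    funext α
    by_cases h : α.1 ∈ Finset.finsuppAntidiag J M
    · simp only [dif_pos h, Pi.smul_apply, RingHom.id_apply]
    · simp only [dif_neg h, Pi.smul_apply, RingHom.id_apply, smul_zero]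

theorem extJ_apply {m M : ℕ} {J : Finset (Fin m)} (f : ↥(Finset.finsuppAntidiag J M) → ℂ)
    (α : Ex m M) :
    extJ M J f α = if h : α.1 ∈ Finset.finsuppAntidiag J M then f ⟨α.1, h⟩ else 0 := rfl

theorem extJ_injective {m M : ℕ} (J : Finset (Fin m)) : Function.Injective (extJ M J) := by
  intro f f' h
  funext α
  have hα : α.1 ∈ Finset.finsuppAntidiag (Finset.univ : Finset (Fin m)) M := by
    have h1 := α.2
    rw [Finset.mem_finsuppAntidiag] at h1 ⊢
    refine ⟨?_, Finset.subset_univ _⟩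
    refine Eq.trans ?_ h1.1
    symm
    apply Finset.sum_subset (Finset.subset_univ _)
    intro x _ hx
    by_contra hne
    exact hx (h1.2 (Finsupp.mem_support_iff.2 hne))
  have h2 := congrFun h ⟨α.1, hα⟩
  rw [extJ_apply, extJ_apply, dif_pos α.2, dif_pos α.2] at h2
  exact h2

theorem lemS {m M : ℕ} (S : Set ℂ) (g : Ex m M → ℂ) (w : Fin m → ℂ)
    (h0 : eval w (Pg g) = 0) (h1 : ∀ i, eval w (pderiv i (Pg g)) = 0) :
    rk S g + (rk (S ∪ Set.range g) w + M - 1).choose M ≤ (m + M - 1).choose M := by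
  classical
  obtain ⟨J, Dl, hJ, hD, hx⟩ := exists_dual (S ∪ Set.range g) w
  have hz : ∀ h ∈ im S g, eval w (Pg h) = 0 := by
    rintro _ ⟨D, hD', rfl⟩
    have h2 := chain D w (Pg g)
    rw [h0, map_zero, Dc_Pg] at h2
    simp only [h1, zero_mul, Finset.sum_const_zero, add_zero] at h2
    exact h2.symm
  have hdisj : im S g ⊓ LinearMap.range (extJ M J) = ⊥ := by
    by_contra hne
    have hst : ∀ D ∈ Kd (S ∪ Set.range g), ∀ v ∈ im S g ⊓ LinearMap.range (extJ M J),
        (fun i => D (v i)) ∈ im S g ⊓ LinearMap.range (extJ M J) := by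
      rintro D hD' v ⟨⟨D', hD'', rfl⟩, ⟨f, hf⟩⟩
      refine ⟨⟨⁅D, D'⁆, ?_, ?_⟩, ⟨fun a => D (f a), ?_⟩⟩
      · intro x hx'
        rw [Derivation.commutator_apply, hD'' x hx', hD' x (Or.inl hx'), map_zero, map_zero,
          sub_zero]
      · funext i
        rw [dv_apply, Derivation.commutator_apply, hD' (g i) (Or.inr ⟨i, rfl⟩), map_zero,
          sub_zero]
        rfl
      · funext α
        rw [← hf, extJ_apply, extJ_apply]
        split_ifs
        · rfl
        · exact (map_zero D).symm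
    obtain ⟨h, ⟨hT, ⟨f, hf⟩⟩, hne', hc⟩ := exists_const hst hne
    apply hne'
    apply Pg_injective
    rw [map_zero]
    refine gen_eval J w Dl hD hx (Pg h).totalDegree (Pg h) le_rfl
      (fun α D hD' => coeff_Pg_const (fun β => hc D hD' β) α) ?_ (hz h hT)
    intro i hi
    ext α
    rw [coeff_pderiv, coeff_zero]
    have h3 : coeff (α + Finsupp.single i 1) (Pg h) = 0 := by
      by_cases h' : (α + Finsupp.single i 1) ∈
          Finset.finsuppAntidiag (Finset.univ : Finset (Fin m)) M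
      · have h4 := coeff_Pg h ⟨_, h'⟩
        simp only at h4
        rw [h4, ← hf, extJ_apply, dif_neg]
        intro h5
        rw [Finset.mem_finsuppAntidiag] at h5
        apply hi
        apply h5.2
        rw [Finsupp.mem_support_iff]
        simp
      · exact coeff_Pg' _ _ h'
    rw [h3, zero_mul]
  have h2 := Submodule.finrank_add_finrank_le_of_disjoint (disjoint_iff.2 hdisj)
  rw [LinearMap.finrank_range_of_inj (extJ_injective J), finrank_fintype_fun_eq_card,
    finrank_fintype_fun_eq_card, card_Ex, Fintype.card_coe,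
    Finset.card_finsuppAntidiag_nat_eq_choose, hJ] at h2
  exact h2

end Pool.Agent.V7.Top
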