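import Pool.Agent.V7.Top.Step

/-!
# Exactness of the evaluation of vector valued forms at general points
-/

namespace Pool.Agent.V7.Top

open Module MvPolynomial

variable {R b m M : ℕ}

/-- Evaluation at a point in coordinates. -/
noncomputable def evR (H : Fin R → Fin b → Ex m M → ℂ) (x : Fin m → ℂ) :
    (Fin R → ℂ) →ₗ[ℂ] (Fin b → ℂ) :=
  LinearMap.pi fun a => ∑ j, eval x (Pg (H j a)) • LinearMap.proj j

theorem evR_apply (H : Fin R → Fin b → Ex m M → ℂ) (x : Fin m → ℂ) (u : Fin R → ℂ) (a : Fin b) :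
    evR H x u a = eval x (Pg (GH H u a)) := by
  rw [ev_GH]
  simp [evR, mul_comm]

theorem VS_insert (H : Fin R → Fin b → Ex m M → ℂ) (A : Set (Fin m → ℂ)) (x : Fin m → ℂ) :
    VS H (insert x A) = VS H A ⊓ LinearMap.ker (evR H x) := by
  ext u
  rw [Submodule.mem_inf, LinearMap.mem_ker, mem_VS, mem_VS]
  constructor
  · intro h
    refine ⟨fun y hy => h y (Or.inr hy), ?_⟩
    funext a
    rw [evR_apply]
    exact h x (Or.inl rfl) a
  · rintro ⟨h1, h2⟩ y (rfl | hy) a
    · rw [← evR_apply, h2]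
      rfl
    · exact h1 y hy a

theorem finrank_split (W : Submodule ℂ (Fin R → ℂ)) (f : (Fin R → ℂ) →ₗ[ℂ] (Fin b → ℂ)) :
    finrank ℂ (W.map f) + finrank ℂ (W ⊓ LinearMap.ker f : Submodule ℂ (Fin R → ℂ)) =
      finrank ℂ W := by
  have h1 := LinearMap.finrank_range_add_finrank_ker (f.domRestrict W)
  rw [LinearMap.range_domRestrict] at h1
  rw [← h1]
  congr 1
  rw [LinearMap.ker_domRestrict]
  have h2 := Submodule.finrank_map_subtype_eq W ((LinearMap.ker f).comap W.subtype)
  rw [Submodule.map_comap_subtype] at h2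
  rw [h2]

theorem VS_drop_le (H : Fin R → Fin b → Ex m M → ℂ) (A : Set (Fin m → ℂ)) (x : Fin m → ℂ) :
    finrank ℂ (VS H A) ≤ finrank ℂ (VS H (insert x A)) + b := by
  rw [VS_insert, ← finrank_split (VS H A) (evR H x)]
  have h1 := Submodule.finrank_le ((VS H A).map (evR H x))
  rw [finrank_fintype_fun_eq_card, Fintype.card_fin] at h1
  omega

theorem VS_drop_mono (H : Fin R → Fin b → Ex m M → ℂ) {A B : Set (Fin m → ℂ)} (h : A ⊆ B)
    (x : Fin m → ℂ) :
    finrank ℂ (VS H B) + finrank ℂ (VS H (insert x A)) ≤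
      finrank ℂ (VS H A) + finrank ℂ (VS H (insert x B)) := by
  rw [VS_insert, VS_insert, ← finrank_split (VS H A) (evR H x),
    ← finrank_split (VS H B) (evR H x)]
  have h1 : VS H B ≤ VS H A := fun u hu y hy => hu y (h hy)
  have h2 := Submodule.finrank_mono (Submodule.map_mono (f := evR H x) h1)
  omega

theorem coord_exact {S : Set ℂ} (hS : S.Countable) {H : Fin R → Fin b → Ex m M → ℂ}
    (hH : ∀ D ∈ Kd S, ∀ j a α, D (H j a α) = 0)
    (hinj : ∀ u : Fin R → ℂ, (∀ a α, GH H u a α = 0) → u = 0) (N₀ : ℕ)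
    (h1 : (m + M - 1).choose M < N₀ + (m - (2 * b - 2) + M - 1).choose M)
    (h2 : ∀ E : Submodule ℂ (Fin b → ℂ), E ≠ ⊥ → E ≠ ⊤ →
      finrank ℂ (secU H E) + finrank ℂ E * (b - finrank ℂ E) < finrank ℂ E * N₀)
    (h3 : b * (N₀ + 1) ≤ R) (N : ℕ) :
    ∃ l : Fin N → Fin m → ℂ, finrank ℂ (VS H (Set.range l)) ≤ R - b * N := by
  classical
  obtain ⟨N', hN', hN''⟩ : ∃ N', N ≤ N' ∧ N₀ + 1 ≤ N' :=
    ⟨max N (N₀ + 1), le_max_left _ _, le_max_right _ _⟩
  obtain ⟨t, ht⟩ := exists_gen hS ((Fin N' × Fin m) ⊕ Fin R)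
  let L : Fin N' → Fin m → ℂ := fun s i => t (Sum.inl (s, i))
  let W : Finset (Fin N') → Submodule ℂ (Fin R → ℂ) := fun A => VS H (L '' A)
  have hWi : ∀ (A : Finset (Fin N')) (q : Fin N'), W (insert q A) = VS H (insert (L q) (L '' A)) := by
    intro A q
    simp only [W, Finset.coe_insert, Set.image_insert_eq]
  have hdrop : ∀ (A : Finset (Fin N')) (q : Fin N'), q ∉ A → N₀ ≤ A.card →
      W (insert q A) ≠ ⊥ → finrank ℂ (W (insert q A)) + b ≤ finrank ℂ (W A) := by
    intro A q hq hA hne
    have hr : Set.range (fun s : A => L s) = L '' A := by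
      ext x
      constructor
      · rintro ⟨s, rfl⟩
        exact ⟨s, s.2, rfl⟩
      · rintro ⟨s, hs, rfl⟩
        exact ⟨⟨s, hs⟩, rfl⟩
    let f : (A × Fin m) ⊕ (Fin m ⊕ Fin R) → (Fin N' × Fin m) ⊕ Fin R :=
      Sum.elim (fun p => Sum.inl (p.1.1, p.2)) (Sum.elim (fun i => Sum.inl (q, i)) Sum.inr)
    have hf : Function.Injective f := by
      rintro (⟨⟨s, hs⟩, i⟩ | (i | j)) (⟨⟨s', hs'⟩, i'⟩ | (i' | j')) h
      · simp only [f, Sum.elim_inl, Sum.inl.injEq, Prod.mk.injEq] at h
        obtain ⟨h4, h5⟩ := h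
        subst h4
        subst h5
        rfl
      · simp only [f, Sum.elim_inl, Sum.elim_inr, Sum.inl.injEq, Prod.mk.injEq] at h
        exact absurd (h.1 ▸ hs) hq
      · simp [f] at h
      · simp only [f, Sum.elim_inl, Sum.elim_inr, Sum.inl.injEq, Prod.mk.injEq] at h
        exact absurd (h.1.symm ▸ hs') hq
      · simp only [f, Sum.elim_inl, Sum.elim_inr, Sum.inl.injEq, Prod.mk.injEq, true_and] at h
        rw [h]
      · simp [f] at h
      · simp [f] at h
      · simp [f] at h
      · simp only [f, Sum.elim_inr, Sum.inr.injEq] at h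
        rw [h]
    have hgen : Gen S (Sum.elim (fun p : A × Fin m => L p.1 p.2)
        (Sum.elim (L q) (fun j => t (Sum.inr j)))) := by
      have h4 := ht.comp f hf
      have h5 : (fun k => t (f k)) = Sum.elim (fun p : A × Fin m => L p.1 p.2)
          (Sum.elim (L q) (fun j => t (Sum.inr j))) := by
        funext k
        rcases k with p | (i | j) <;> rfl
      rw [h5] at h4
      exact h4
    have h4 := main_claim hH hinj (fun s : A => L s) (L q) (fun j => t (Sum.inr j)) hgen N₀
      (by rw [Fintype.card_coe]; exact hA) h1 h2 (by rw [hr, ← hWi]; exact hne)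
    rw [hr, ← hWi] at h4
    exact h4
  have hlow : ∀ A : Finset (Fin N'), R ≤ finrank ℂ (W A) + b * A.card := by
    intro A
    induction A using Finset.induction_on with
    | empty =>
      have h4 : W ∅ = ⊤ := by
        rw [eq_top_iff]
        intro u _ x hx
        simp at hx
      rw [h4, finrank_top, finrank_fintype_fun_eq_card, Fintype.card_fin]
      omega
    | insert q A hq ih =>
      have h4 := VS_drop_le H (L '' A) (L q)
      rw [← hWi] at h4
      rw [Finset.card_insert_of_notMem hq, mul_add, mul_one]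
      have h5 : finrank ℂ (W A) = finrank ℂ (VS H (L '' A)) := rfl
      omega
  have hP : ∀ (A : Finset (Fin N')) (q : Fin N'), q ∉ A → A.card = N₀ →
      finrank ℂ (W (insert q A)) + b ≤ finrank ℂ (W A) := by
    intro A q hq hA
    by_cases hne : W (insert q A) = ⊥
    · rw [hne, finrank_bot]
      have h4 := hlow A
      rw [hA] at h4
      rw [mul_add, mul_one] at h3
      omega
    · exact hdrop A q hq hA.ge hne
  have hsmall : ∀ (A : Finset (Fin N')) (q : Fin N'), q ∉ A → A.card ≤ N₀ →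
      finrank ℂ (W (insert q A)) + b ≤ finrank ℂ (W A) := by
    intro A q hq hA
    have h4 : A ⊆ Finset.univ.erase q := by
      intro x hx
      rw [Finset.mem_erase]
      refine ⟨?_, Finset.mem_univ _⟩
      rintro rfl
      exact hq hx
    have h5 : N₀ ≤ (Finset.univ.erase q).card := by
      rw [Finset.card_erase_of_mem (Finset.mem_univ _), Finset.card_univ, Fintype.card_fin]
      omega
    obtain ⟨B, hAB, hB, hBc⟩ := Finset.exists_subsuperset_card_eq h4 hA h5
    have hqB : q ∉ B := fun h => (Finset.mem_erase.1 (hB h)).1 rfl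
    have h6 := hP B q hqB hBc
    have h7 := VS_drop_mono H (A := L '' A) (B := L '' B)
      (Set.image_mono (Finset.coe_subset.2 hAB)) (L q)
    rw [← hWi, ← hWi] at h7
    have h8 : finrank ℂ (W A) = finrank ℂ (VS H (L '' A)) := rfl
    have h9 : finrank ℂ (W B) = finrank ℂ (VS H (L '' B)) := rfl
    omega
  have hmain : ∀ A : Finset (Fin N'), finrank ℂ (W A) ≤ R - b * A.card := by
    intro A
    induction A using Finset.induction_on with
    | empty =>
      have h4 := Submodule.finrank_le (W ∅)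
      rw [finrank_fintype_fun_eq_card, Fintype.card_fin] at h4
      rw [Finset.card_empty, mul_zero, Nat.sub_zero]
      exact h4
    | insert q A hq ih =>
      rw [Finset.card_insert_of_notMem hq, mul_add, mul_one]
      by_cases hA : A.card ≤ N₀
      · have h4 := hsmall A q hq hA
        omega
      · by_cases hne : W (insert q A) = ⊥
        · rw [hne, finrank_bot]
          exact Nat.zero_le _
        · have h4 := hdrop A q hq (by omega) hne
          omega
  refine ⟨fun s => L (Fin.castLE hN' s), ?_⟩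
  have h4 := hmain (Finset.univ.map (Fin.castLEEmb hN'))
  rw [Finset.card_map, Finset.card_univ, Fintype.card_fin] at h4
  have h5 : Set.range (fun s => L (Fin.castLE hN' s)) =
      L '' (Finset.univ.map (Fin.castLEEmb hN') : Finset (Fin N')) := by
    ext x
    constructor
    · rintro ⟨s, rfl⟩
      exact ⟨Fin.castLE hN' s, Finset.mem_coe.2 (Finset.mem_map.2 ⟨s, Finset.mem_univ s, rfl⟩),
        rfl⟩
    · rintro ⟨y, hy, rfl⟩
      obtain ⟨s, -, rfl⟩ := Finset.mem_map.1 (Finset.mem_coe.1 hy)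
      exact ⟨s, rfl⟩
  rw [h5]
  exact h4

/-- The members of `V` all of whose vectors of coefficients lie in `E`. -/
noncomputable def secE (V : Submodule ℂ (Fin b → MvPolynomial (Fin m) ℂ))
    (E : Submodule ℂ (Fin b → ℂ)) : Submodule ℂ (Fin b → MvPolynomial (Fin m) ℂ) where
  carrier := {G | G ∈ V ∧ ∀ α, (fun a => coeff α (G a)) ∈ E}
  add_mem' := by
    rintro G G' ⟨h1, h2⟩ ⟨h3, h4⟩
    refine ⟨V.add_mem h1 h3, fun α => ?_⟩
    have h5 : (fun a => coeff α ((G + G') a)) =
        (fun a => coeff α (G a)) + fun a => coeff α (G' a) := by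
      funext a
      simp
    rw [h5]
    exact E.add_mem (h2 α) (h4 α)
  zero_mem' := by
    refine ⟨V.zero_mem, fun α => ?_⟩
    have h5 : (fun a => coeff α ((0 : Fin b → MvPolynomial (Fin m) ℂ) a)) = 0 := by
      funext a
      simp
    rw [h5]
    exact E.zero_mem
  smul_mem' := by
    rintro c G ⟨h1, h2⟩
    refine ⟨V.smul_mem c h1, fun α => ?_⟩
    have h5 : (fun a => coeff α ((c • G) a)) = c • fun a => coeff α (G a) := by
      funext a
      simp
    rw [h5]
    exact E.smul_mem c (h2 α)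

/-- The members of `V` which vanish at the points `l s`. -/
noncomputable def vanish {κ : Type*} (V : Submodule ℂ (Fin b → MvPolynomial (Fin m) ℂ))
    (l : κ → Fin m → ℂ) : Submodule ℂ (Fin b → MvPolynomial (Fin m) ℂ) where
  carrier := {G | G ∈ V ∧ ∀ s a, eval (l s) (G a) = 0}
  add_mem' := by
    rintro G G' ⟨h1, h2⟩ ⟨h3, h4⟩
    refine ⟨V.add_mem h1 h3, fun s a => ?_⟩
    rw [Pi.add_apply, map_add, h2, h4, add_zero]
  zero_mem' := ⟨V.zero_mem, fun s a => by rw [Pi.zero_apply, map_zero]⟩
  smul_mem' := by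
    rintro c G ⟨h1, h2⟩
    refine ⟨V.smul_mem c h1, fun s a => ?_⟩
    rw [Pi.smul_apply, smul_eval, h2, mul_zero]

/-- Exactness of the evaluation of vector valued forms at general points: if the slope condition
`h2` holds, `N` general points impose `min (b * N) (dim V)` conditions on `V`. -/
theorem top_exact (V : Submodule ℂ (Fin b → MvPolynomial (Fin m) ℂ)) [FiniteDimensional ℂ V]
    (hV : ∀ G ∈ V, ∀ a, (G a).IsHomogeneous M) (N₀ : ℕ)
    (h1 : (m + M - 1).choose M < N₀ + (m - (2 * b - 2) + M - 1).choose M)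
    (h2 : ∀ E : Submodule ℂ (Fin b → ℂ), E ≠ ⊥ → E ≠ ⊤ →
      finrank ℂ (secE V E) + finrank ℂ E * (b - finrank ℂ E) < finrank ℂ E * N₀)
    (h3 : b * (N₀ + 1) ≤ finrank ℂ V) (N : ℕ) :
    ∃ l : Fin N → Fin m → ℂ, finrank ℂ (vanish V l) ≤ finrank ℂ V - b * N := by
  classical
  let B := Module.finBasis ℂ V
  let H : Fin (finrank ℂ V) → Fin b → Ex m M → ℂ :=
    fun j a α => coeff α.1 (((B j : V) : Fin b → MvPolynomial (Fin m) ℂ) a)
  let S : Set ℂ := Set.range (fun q : Fin (finrank ℂ V) × Fin b × Ex m M => H q.1 q.2.1 q.2.2)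
  have hS : S.Countable := Set.countable_range _
  have hH : ∀ D ∈ Kd S, ∀ j a α, D (H j a α) = 0 := fun D hD j a α => hD _ ⟨(j, a, α), rfl⟩
  let f : (Fin (finrank ℂ V) → ℂ) →ₗ[ℂ] (Fin b → MvPolynomial (Fin m) ℂ) :=
    V.subtype.comp B.equivFun.symm.toLinearMap
  have hf : Function.Injective f :=
    Subtype.val_injective.comp B.equivFun.symm.injective
  have hfV : ∀ u, f u ∈ V := fun u => (B.equivFun.symm u).2
  have hfP : ∀ u a, f u a = Pg (GH H u a) := by
    intro u a
    have h4 : f u a = ∑ j, u j • ((B j : V) : Fin b → MvPolynomial (Fin m) ℂ) a := by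
      show ((B.equivFun.symm u : V) : Fin b → MvPolynomial (Fin m) ℂ) a = _
      rw [Basis.equivFun_symm_apply, Submodule.coe_sum, Finset.sum_apply]
      rfl
    ext α
    by_cases h : α ∈ Finset.finsuppAntidiag (Finset.univ : Finset (Fin m)) M
    · have h5 := coeff_Pg (GH H u a) ⟨α, h⟩
      simp only at h5
      rw [h5, GH_apply, h4, coeff_sum]
      apply Finset.sum_congr rfl
      intro j _
      rw [coeff_smul, smul_eq_mul]
    · rw [coeff_Pg' _ _ h]
      apply (hV _ (hfV u) a).coeff_eq_zero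
      intro h5
      apply h
      rw [Finset.mem_finsuppAntidiag]
      refine ⟨?_, Finset.subset_univ _⟩
      rw [← h5, Finsupp.degree_eq_sum]
  have hinj : ∀ u : Fin (finrank ℂ V) → ℂ, (∀ a α, GH H u a α = 0) → u = 0 := by
    intro u hu
    apply hf
    rw [map_zero]
    funext a
    rw [hfP, Pi.zero_apply, ← map_zero Pg]
    congr 1
    funext α
    exact hu a α
  have hsurj : ∀ G ∈ V, ∃ u, f u = G := by
    intro G hG
    refine ⟨B.equivFun ⟨G, hG⟩, ?_⟩
    show ((B.equivFun.symm (B.equivFun ⟨G, hG⟩) : V) : Fin b → MvPolynomial (Fin m) ℂ) = G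
    rw [LinearEquiv.symm_apply_apply]
  have hsec : ∀ E : Submodule ℂ (Fin b → ℂ), finrank ℂ (secU H E) = finrank ℂ (secE V E) := by
    intro E
    have h4 : (secU H E).map f = secE V E := by
      ext G
      constructor
      · rintro ⟨u, hu, rfl⟩
        refine ⟨hfV u, fun α => ?_⟩
        by_cases h : α ∈ Finset.finsuppAntidiag (Finset.univ : Finset (Fin m)) M
        · have h5 := hu ⟨α, h⟩
          have h6 : (fun a => coeff α (f u a)) = col H u ⟨α, h⟩ := by
            funext a
            rw [hfP]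
            exact coeff_Pg (GH H u a) ⟨α, h⟩
          rw [h6]
          exact h5
        · have h6 : (fun a => coeff α (f u a)) = 0 := by
            funext a
            rw [hfP, coeff_Pg' _ _ h]
            rfl
          rw [h6]
          exact E.zero_mem
      · rintro ⟨hG, hG'⟩
        obtain ⟨u, rfl⟩ := hsurj G hG
        refine ⟨u, fun α => ?_, rfl⟩
        have h6 : (fun a => coeff α.1 (f u a)) = col H u α := by
          funext a
          rw [hfP]
          exact coeff_Pg (GH H u a) α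
        rw [← h6]
        exact hG' α.1
    rw [← h4]
    exact (Submodule.equivMapOfInjective f hf (secU H E)).finrank_eq
  obtain ⟨l, hl⟩ := coord_exact hS hH hinj N₀ h1 (fun E hE hE' => by
    rw [hsec]
    exact h2 E hE hE') h3 N
  refine ⟨l, ?_⟩
  have h4 : (VS H (Set.range l)).map f = vanish V l := by
    ext G
    constructor
    · rintro ⟨u, hu, rfl⟩
      refine ⟨hfV u, fun s a => ?_⟩
      rw [hfP]
      exact hu (l s) ⟨s, rfl⟩ a
    · rintro ⟨hG, hG'⟩
      obtain ⟨u, rfl⟩ := hsurj G hG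
      refine ⟨u, ?_, rfl⟩
      rintro x ⟨s, rfl⟩ a
      rw [← hfP]
      exact hG' s a
  rw [← h4, ← (Submodule.equivMapOfInjective f hf (VS H (Set.range l))).finrank_eq]
  exact hl

end Pool.Agent.V7.Top
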