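import Pool.Agent.V7.Top.ClaimZ

/-!
# The rank of the evaluation at a further independent point
-/

namespace Pool.Agent.V7.Top

open Module MvPolynomial

variable {R b m M : ℕ}

/-- A tuple is generic over `S` if the derivations which vanish on `S` take all values on it. -/
def Gen {ι : Type*} (S : Set ℂ) (t : ι → ℂ) : Prop :=
  ∀ c : ι → ℂ, ∃ D ∈ Kd S, ∀ i, D (t i) = c i

theorem Gen.comp {ι κ : Type*} {S : Set ℂ} {t : ι → ℂ} (h : Gen S t) (f : κ → ι)
    (hf : Function.Injective f) : Gen S (fun k => t (f k)) := by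
  classical
  intro c
  obtain ⟨D, hD, hc⟩ := h (fun i => if h : ∃ k, f k = i then c h.choose else 0)
  refine ⟨D, hD, fun k => ?_⟩
  have hk : ∃ k', f k' = f k := ⟨k, rfl⟩
  rw [hc, dif_pos hk]
  congr 1
  exact hf hk.choose_spec

theorem Gen.right {ι κ : Type*} {S : Set ℂ} {t : ι → ℂ} {t' : κ → ℂ}
    (h : Gen S (Sum.elim t t')) : Gen (S ∪ Set.range t) t' := by
  intro c
  obtain ⟨D, hD, hc⟩ := h (Sum.elim 0 c)
  refine ⟨D, ?_, fun i => hc (Sum.inr i)⟩
  rintro x (hx | ⟨i, rfl⟩)
  · exact hD x hx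
  · exact hc (Sum.inl i)

theorem Gen.rk {ι : Type*} [Fintype ι] {S : Set ℂ} {t : ι → ℂ} (h : Gen S t) :
    rk S t = Fintype.card ι := by
  have h1 : im S t = ⊤ := by
    rw [eq_top_iff]
    intro c _
    obtain ⟨D, hD, hc⟩ := h c
    exact ⟨D, hD, funext hc⟩
  rw [Top.rk, h1, finrank_top, finrank_fintype_fun_eq_card]

theorem exists_gen {S : Set ℂ} (hS : S.Countable) (ι : Type*) [Fintype ι] :
    ∃ t : ι → ℂ, Gen S t := by
  classical
  obtain ⟨t, D, hD, ht⟩ := exists_der S hS (Fintype.card ι)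
  let e := Fintype.equivFin ι
  refine ⟨fun i => t (e i), fun c => ⟨∑ k, c (e.symm k) • D k, ?_, ?_⟩⟩
  · exact Submodule.sum_mem _ fun k _ => Submodule.smul_mem _ _ (hD k)
  · intro i
    have h1 : (∑ k, c (e.symm k) • D k) (t (e i)) = ∑ k, c (e.symm k) * (D k) (t (e i)) := by
      rw [← Derivation.coeFnAddMonoidHom_apply, map_sum, Finset.sum_apply]
      rfl
    rw [h1, Finset.sum_eq_single (e i)]
    · rw [ht, if_pos rfl, mul_one, Equiv.symm_apply_apply]
    · intro k _ hk
      rw [ht, if_neg hk, mul_zero]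
    · intro h
      exact absurd (Finset.mem_univ _) h

theorem ev_GH (H : Fin R → Fin b → Ex m M → ℂ) (u : Fin R → ℂ) (a : Fin b) (x : Fin m → ℂ) :
    eval x (Pg (GH H u a)) = ∑ j, u j * eval x (Pg (H j a)) := by
  simp only [← evL_apply]
  rw [GH, map_sum]
  apply Finset.sum_congr rfl
  intro j _
  rw [map_smul, smul_eq_mul]

/-- The coordinates of the forms which vanish on a set. -/
noncomputable def VS (H : Fin R → Fin b → Ex m M → ℂ) (A : Set (Fin m → ℂ)) :
    Submodule ℂ (Fin R → ℂ) where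
  carrier := {u | ∀ x ∈ A, ∀ a, eval x (Pg (GH H u a)) = 0}
  add_mem' := by
    intro u v hu hv x hx a
    have h1 := hu x hx a
    have h2 := hv x hx a
    rw [ev_GH] at h1 h2 ⊢
    simp only [Pi.add_apply, add_mul, Finset.sum_add_distrib]
    rw [h1, h2, add_zero]
  zero_mem' := by
    intro x _ a
    rw [ev_GH]
    simp
  smul_mem' := by
    intro c u hu x hx a
    have h1 := hu x hx a
    rw [ev_GH] at h1 ⊢
    simp only [Pi.smul_apply, smul_eq_mul, mul_assoc]
    rw [← Finset.mul_sum, h1, mul_zero]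

theorem mem_VS {H : Fin R → Fin b → Ex m M → ℂ} {A : Set (Fin m → ℂ)} {u : Fin R → ℂ} :
    u ∈ VS H A ↔ ∀ x ∈ A, ∀ a, eval x (Pg (GH H u a)) = 0 := Iff.rfl

theorem VS_stable {S T : Set ℂ} {H : Fin R → Fin b → Ex m M → ℂ}
    (hH : ∀ D ∈ Kd S, ∀ j a α, D (H j a α) = 0) (hST : S ⊆ T) {A : Set (Fin m → ℂ)}
    (hA : ∀ x ∈ A, ∀ i, x i ∈ T) (D : Derivation ℚ ℂ ℂ) (hD : D ∈ Kd T) (u : Fin R → ℂ)
    (hu : u ∈ VS H A) : (fun j => D (u j)) ∈ VS H A := by
  intro x hx a
  have h1 := chain D x (Pg (GH H u a))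
  rw [hu x hx a, map_zero, Dc_Pg] at h1
  have h2 : ∑ i, eval x (pderiv i (Pg (GH H u a))) * D (x i) = 0 := by
    apply Finset.sum_eq_zero
    intro i _
    rw [hD _ (hA x hx i), mul_zero]
  rw [h2, add_zero] at h1
  have h3 : (fun α => D (GH H u a α)) = GH H (fun j => D (u j)) a := by
    funext α
    exact GH_const hH (Kd_anti hST hD) u a α
  rw [h3] at h1
  exact h1.symm

theorem step1 {κ : Type*} [Fintype κ] {S : Set ℂ} {H : Fin R → Fin b → Ex m M → ℂ}
    (hH : ∀ D ∈ Kd S, ∀ j a α, D (H j a α) = 0) (l : κ → Fin m → ℂ) (z : Fin m → ℂ)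
    (τ : Fin R → ℂ) (hgen : Gen (S ∪ Set.range (fun q : κ × Fin m => l q.1 q.2))
      (Sum.elim z τ)) (hK : VS H (insert z (Set.range l)) ≠ ⊥) :
    ∃ u ∈ VS H (insert z (Set.range l)), u ≠ 0 ∧
      finrank ℂ (VS H (insert z (Set.range l))) + m ≤
        finrank ℂ (VS H (Set.range l)) + rk (S ∪ Set.range u) z := by
  classical
  set Sl : Set ℂ := S ∪ Set.range (fun q : κ × Fin m => l q.1 q.2) with hSl
  set K := VS H (insert z (Set.range l)) with hKdef
  obtain ⟨a, c, ha, hc, hac, hs⟩ := exists_pivot K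
  have hst : ∀ D ∈ Kd (Sl ∪ Set.range z), ∀ w ∈ K, (fun i => D (w i)) ∈ K := by
    intro D hD w hw
    refine VS_stable hH (T := Sl ∪ Set.range z) ?_ ?_ D hD w hw
    · exact fun x hx => Or.inl (Or.inl hx)
    · rintro x (rfl | ⟨s, rfl⟩) i
      · exact Or.inr ⟨i, rfl⟩
      · exact Or.inl (Or.inr ⟨(s, i), rfl⟩)
  set u : Fin R → ℂ := ∑ k, τ (a k) • c k with hu
  have huK : u ∈ K := Submodule.sum_mem _ fun k _ => Submodule.smul_mem _ _ (hc k)
  have hua : ∀ k, u (a k) = τ (a k) := by
    intro k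
    rw [hu, Finset.sum_apply, Finset.sum_eq_single k]
    · rw [Pi.smul_apply, hac, if_pos rfl, smul_eq_mul, mul_one]
    · intro k' _ hk'
      rw [Pi.smul_apply, hac, if_neg hk', smul_zero]
    · intro h
      exact absurd (Finset.mem_univ _) h
  have hpos : 0 < finrank ℂ K := by
    rw [pos_iff_ne_zero]
    intro h
    exact hK (Submodule.finrank_eq_zero.1 h)
  refine ⟨u, huK, ?_, ?_⟩
  · intro h0
    obtain ⟨D, hD, hDc⟩ := hgen (Sum.elim 0 1)
    have h1 := hDc (Sum.inr (a ⟨0, hpos⟩))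
    simp only [Sum.elim_inr, Pi.one_apply] at h1
    rw [← hua, h0] at h1
    simp at h1
  · have h1 := rk_joint Sl u z
    have h2 : finrank ℂ K + m ≤ finrank ℂ ((Kd Sl).map ((dv u).prod (dv z))) := by
      let F : (Fin R → ℂ) × (Fin m → ℂ) →ₗ[ℂ] (Fin (finrank ℂ K) → ℂ) × (Fin m → ℂ) :=
        LinearMap.prodMap (LinearMap.funLeft ℂ ℂ a) LinearMap.id
      have h3 : ((Kd Sl).map ((dv u).prod (dv z))).map F = ⊤ := by
        rw [eq_top_iff]
        rintro ⟨x, y⟩ _
        obtain ⟨D, hD, hDc⟩ := hgen (Sum.elim y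
          (fun i => if h : ∃ k, a k = i then x h.choose else 0))
        refine ⟨_, ⟨D, hD, rfl⟩, ?_⟩
        apply Prod.ext
        · funext k
          show D (u (a k)) = x k
          rw [hua]
          have h4 := hDc (Sum.inr (a k))
          have hk : ∃ k', a k' = a k := ⟨k, rfl⟩
          simp only [Sum.elim_inr, dif_pos hk] at h4
          rw [h4]
          congr 1
          exact ha hk.choose_spec
        · funext i
          exact hDc (Sum.inl i)
      have h4 := Submodule.finrank_map_le F ((Kd Sl).map ((dv u).prod (dv z)))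
      rw [h3, finrank_top, finrank_prod, finrank_fintype_fun_eq_card,
        finrank_fintype_fun_eq_card, Fintype.card_fin, Fintype.card_fin] at h4
      exact h4
    have h3 : rk Sl u ≤ finrank ℂ (VS H (Set.range l)) := by
      apply Submodule.finrank_mono
      rintro _ ⟨D, hD, rfl⟩
      refine VS_stable hH (T := Sl) (fun x hx => Or.inl hx) ?_ D hD u ?_
      · rintro x ⟨s, rfl⟩ i
        exact Or.inr ⟨(s, i), rfl⟩
      · intro x hx
        exact huK x (Or.inr hx)
    have h4 : rk (Sl ∪ Set.range u) z ≤ rk (S ∪ Set.range u) z := by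
      apply rk_anti
      rintro x (hx | hx)
      · exact Or.inl (Or.inl hx)
      · exact Or.inr hx
    omega

/-- The coordinates of the forms whose coefficients lie in a subspace. -/
noncomputable def secU (H : Fin R → Fin b → Ex m M → ℂ) (E : Submodule ℂ (Fin b → ℂ)) :
    Submodule ℂ (Fin R → ℂ) where
  carrier := {u | ∀ α, col H u α ∈ E}
  add_mem' := by
    intro u v hu hv α
    have h1 : col H (u + v) α = col H u α + col H v α := by
      funext a
      simp only [col, GH_apply, Pi.add_apply, add_mul, Finset.sum_add_distrib]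
    rw [h1]
    exact E.add_mem (hu α) (hv α)
  zero_mem' := by
    intro α
    have h1 : col H (0 : Fin R → ℂ) α = 0 := by
      funext a
      simp [col, GH_apply]
    rw [h1]
    exact E.zero_mem
  smul_mem' := by
    intro c u hu α
    have h1 : col H (c • u) α = c • col H u α := by
      funext a
      simp only [col, GH_apply, Pi.smul_apply, smul_eq_mul, mul_assoc, Finset.mul_sum]
    rw [h1]
    exact E.smul_mem c (hu α)

theorem step5 {S : Set ℂ} {H : Fin R → Fin b → Ex m M → ℂ}
    (hH : ∀ D ∈ Kd S, ∀ j a α, D (H j a α) = 0) (u : Fin R → ℂ) :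
    rk S u ≤ finrank ℂ (secU H (Es H u)) +
      finrank ℂ (Es H u) * (b - finrank ℂ (Es H u)) := by
  classical
  obtain ⟨a, c, ha, hc, hac, hs⟩ := exists_pivot (Es H u)
  let ε : Fin (finrank ℂ (Es H u)) × {i : Fin b // i ∉ Finset.univ.image a} → ℂ :=
    fun q => c q.1 q.2.1
  have h1 := rk_le_add S ε u
  have h2 := rk_le_card S ε
  have h3 : Fintype.card (Fin (finrank ℂ (Es H u)) × {i : Fin b // i ∉ Finset.univ.image a}) =
      finrank ℂ (Es H u) * (b - finrank ℂ (Es H u)) := by
    rw [Fintype.card_prod, Fintype.card_fin, Fintype.card_subtype_compl,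
      Fintype.card_coe, Finset.card_image_of_injective _ ha, Finset.card_univ,
      Fintype.card_fin, Fintype.card_fin]
  have h4 : rk (S ∪ Set.range ε) u ≤ finrank ℂ (secU H (Es H u)) := by
    apply Submodule.finrank_mono
    rintro _ ⟨D, hD, rfl⟩ α
    have h5 : ∀ k i, D (c k i) = 0 := by
      intro k i
      by_cases hi : i ∈ Finset.univ.image a
      · obtain ⟨k', -, rfl⟩ := Finset.mem_image.1 hi
        rw [hac]
        split_ifs
        · exact D.map_one_eq_zero
        · exact map_zero D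
      · exact hD _ (Or.inr ⟨(k, ⟨i, hi⟩), rfl⟩)
    have h6 : col H (fun j => D (u j)) α = ∑ k, D (col H u α (a k)) • c k := by
      funext i
      have h7 : col H (fun j => D (u j)) α i = D (col H u α i) :=
        (GH_const hH (Kd_anti Set.subset_union_left hD) u i α).symm
      have h8 := congrFun (hs _ (col_mem H u α)) i
      rw [h7, h8, Finset.sum_apply, map_sum, Finset.sum_apply]
      apply Finset.sum_congr rfl
      intro k _
      rw [Pi.smul_apply, Pi.smul_apply, smul_eq_mul, Derivation.leibniz, h5, smul_zero,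
        zero_add, smul_eq_mul, smul_eq_mul, mul_comm]
    show col H (fun j => D (u j)) α ∈ Es H u
    rw [h6]
    exact Submodule.sum_mem _ fun k _ => Submodule.smul_mem _ _ (hc k)
  omega

theorem main_claim {κ : Type*} [Fintype κ] {S : Set ℂ} {H : Fin R → Fin b → Ex m M → ℂ}
    (hH : ∀ D ∈ Kd S, ∀ j a α, D (H j a α) = 0)
    (hinj : ∀ u : Fin R → ℂ, (∀ a α, GH H u a α = 0) → u = 0)
    (l : κ → Fin m → ℂ) (z : Fin m → ℂ) (τ : Fin R → ℂ)
    (hgen : Gen S (Sum.elim (fun q : κ × Fin m => l q.1 q.2) (Sum.elim z τ)))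
    (N₀ : ℕ) (hκ : N₀ ≤ Fintype.card κ)
    (h1 : (m + M - 1).choose M < N₀ + (m - (2 * b - 2) + M - 1).choose M)
    (h2 : ∀ E : Submodule ℂ (Fin b → ℂ), E ≠ ⊥ → E ≠ ⊤ →
      finrank ℂ (secU H E) + finrank ℂ E * (b - finrank ℂ E) < finrank ℂ E * N₀)
    (hK : VS H (insert z (Set.range l)) ≠ ⊥) :
    finrank ℂ (VS H (insert z (Set.range l))) + b ≤ finrank ℂ (VS H (Set.range l)) := by
  classical
  obtain ⟨u, huK, hu0, hu⟩ := step1 hH l z τ hgen.right hK
  have hl : rk S (fun q : κ × Fin m => l q.1 q.2) = Fintype.card κ * m := by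
    have h3 : Gen S (fun q : κ × Fin m => l q.1 q.2) := hgen.comp Sum.inl Sum.inl_injective
    rw [h3.rk, Fintype.card_prod, Fintype.card_fin]
  have huz : ∀ a, eval z (Pg (GH H u a)) = 0 := huK z (Or.inl rfl)
  have hul : ∀ s a, eval (l s) (Pg (GH H u a)) = 0 := fun s => huK (l s) (Or.inr ⟨s, rfl⟩)
  have heb : finrank ℂ (Es H u) ≤ b := by
    have h3 := Submodule.finrank_le (Es H u)
    rw [finrank_fintype_fun_eq_card, Fintype.card_fin] at h3
    exact h3
  have hN : (m + M - 1).choose M <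
      Fintype.card κ + (m - (2 * finrank ℂ (Es H u) - 2) + M - 1).choose M := by
    have h3 : (m - (2 * b - 2) + M - 1).choose M ≤
        (m - (2 * finrank ℂ (Es H u) - 2) + M - 1).choose M := by
      apply Nat.choose_le_choose
      omega
    omega
  have h3 := claimZ hH u l hl hul z huz hN
  by_cases he : finrank ℂ (Es H u) = b
  · omega
  · exfalso
    have hbot : Es H u ≠ ⊥ := by
      intro h
      apply hu0
      apply hinj
      intro a α
      have h4 := col_mem H u α
      rw [h, Submodule.mem_bot] at h4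
      exact congrFun h4 a
    have htop : Es H u ≠ ⊤ := by
      intro h
      apply he
      rw [h, finrank_top, finrank_fintype_fun_eq_card, Fintype.card_fin]
    have h4 := h2 (Es H u) hbot htop
    have h5 := step5 hH u
    have h6 := rk_le_add S u (fun q : κ × Fin m => l q.1 q.2)
    have h7 := rk_prod_le (S ∪ Set.range u) l
    have h8 : ∑ s, (rk (S ∪ Set.range u) (l s) + finrank ℂ (Es H u)) ≤ ∑ _s : κ, m :=
      Finset.sum_le_sum fun s _ => claimZ hH u l hl hul (l s) (hul s) hN
    rw [Finset.sum_add_distrib, Finset.sum_const, Finset.sum_const, Finset.card_univ,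
      smul_eq_mul, smul_eq_mul] at h8
    have h9 : finrank ℂ (Es H u) * N₀ ≤ Fintype.card κ * finrank ℂ (Es H u) := by
      rw [mul_comm]
      exact Nat.mul_le_mul_right _ hκ
    omega

end Pool.Agent.V7.Top
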